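import Pool.Agent.Q6.NW.Eu
import Pool.Agent.Y18.LP.Tup
import Pool.Agent.Y18.LP.Main

/-!
Newforms of weight two with arbitrary coefficients over abelian fields of exponent a power of `l`
(after `Pool.Agent.Y18.LP.Core` and `Pool.Agent.Y18.LP.Main`, where the newforms are those of elliptic
curves).
-/

set_option autoImplicit false

open NumberField IsDedekindDomain H300.HW UpperHalfPlane MatrixGroups CongruenceSubgroup

namespace Pool.Agent.Q6.NW

open Pool.Agent.Y18.BSD Pool.Agent.Y18.LP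
open Pool.Agent.Y18.NF (ez plE finite_gen)
open Pool.Agent.Y702.L (pv)
open Pool.Agent.TH940 (Fr)

/-- `f` is a newform of weight two and level `N` (standard properties) -/
structure IsNf (N : ℕ) (f : CuspForm (Gamma0 N : Subgroup (GL (Fin 2) ℝ)) 2) : Prop where
  one : co f 1 = 1
  real : ∀ n, (co f n).im = 0
  mul : ∀ m n : ℕ, Nat.Coprime m n → co f (m * n) = co f m * co f n
  pow : ∀ p j : ℕ, p.Prime → co f (p ^ (j + 2)) = co f p * co f (p ^ (j + 1)) -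
      (if p ∣ N then 0 else (p : ℂ) * co f (p ^ j))
  good : ∀ p : ℕ, p.Prime → ¬ p ∣ N → ‖co f p‖ ≤ 2 * Real.sqrt p
  bad : ∀ p : ℕ, p.Prime → p ∣ N → ‖co f p‖ ≤ 1
  fricke : ∃ w : ℝ, (w = 1 ∨ w = -1) ∧ ∀ τ τ' : ℍ, (τ' : ℂ) * ((N : ℂ) * (τ : ℂ)) = -1 →
    f τ' = -(w : ℂ) * (N : ℂ) * (τ : ℂ) ^ 2 * f τ

variable {N : ℕ} [NeZero N] {f : CuspForm (Gamma0 N : Subgroup (GL (Fin 2) ℝ)) 2}

lemma IsNf.cf (hf : IsNf N f) : Cf N (co f) :=
  ⟨W388.coeff_zero f, hf.one, hf.real, hf.mul, hf.pow, hf.good, hf.bad⟩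

omit [NeZero N] in
lemma IsNf.hrel (hf : IsNf N f) : HRel f := ⟨hf.one, hf.mul, hf.pow⟩

omit [NeZero N] in
lemma IsNf.newf (hf : IsNf N f) : ∃ w : ℝ, W388.IsNewf N 2 f w ∧ Fr f (w : ℂ) := by
  obtain ⟨w, hw, hfr⟩ := hf.fricke
  have hN0 : (0 : ℝ) ≤ (N : ℝ) := Nat.cast_nonneg N
  have hsq : ((Real.sqrt N : ℝ) : ℂ) ^ 2 = (N : ℂ) := by
    have h1 : (Real.sqrt N) ^ 2 = (N : ℝ) := Real.sq_sqrt hN0
    exact_mod_cast congrArg (fun x : ℝ => (x : ℂ)) h1
  refine ⟨w, ⟨hf.one, hf.real, hf.mul, ?_, hw, ?_⟩, hfr⟩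
  · intro p j hp
    have h1 := hf.pow p j hp
    unfold co at h1
    rw [h1]
    norm_num
  · intro τ τ' h
    rw [hfr τ τ' h]
    congr 1
    have hI : Complex.I ^ 2 = -1 := Complex.I_sq
    have : (((Real.sqrt N : ℝ) : ℂ) * (τ : ℂ) / Complex.I) ^ (2 : ℤ) = -((N : ℂ) * (τ : ℂ) ^ 2) := by
      rw [zpow_ofNat, div_pow, mul_pow, hsq, hI]
      ring
    rw [this]
    ring

/-- `L(f, 1) ≠ 0`: there is an entire function equal to the Euler product of `f` for `Re s > 3/2`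
which does not vanish at `s = 1` -/
def Rk0 (N : ℕ) (c : ℕ → ℂ) : Prop := ∃ G : ℂ → ℂ, Differentiable ℂ G ∧
  (∀ s : ℂ, 3 / 2 < s.re → HasProd (fun p : Nat.Primes => ez N c 1 s p) (G s)) ∧ G 1 ≠ 0

lemma bv0_ne' (hf : IsNf N f) (h0 : Rk0 N (co f)) : bv f 0 ≠ 0 := by
  classical
  obtain ⟨w, hnf, hfr⟩ := hf.newf
  obtain ⟨F, hF1, hF2, hF3⟩ := h0
  obtain ⟨L, hL1, hL2, hL3⟩ := exists_L hnf hfr hf.cf 1 (1 : DirichletCharacter ℂ 1)
    DirichletCharacter.isPrimitive_one_level_one (Nat.coprime_one_left N)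
  have hLF : ∀ s : ℂ, (3 : ℝ) / 2 < s.re → L s = F s := by
    intro s hs
    have h2 := hf.cf.euler (1 : DirichletCharacter ℂ 1) hs
    rw [← hL2 s hs] at h2
    have h3 : (fun p : ℕ => if p.Prime then (lf N (co f) (1 : DirichletCharacter ℂ 1) s p)⁻¹ else 1) =
        Set.mulIndicator {p : ℕ | p.Prime}
          (fun p => (lf N (co f) (1 : DirichletCharacter ℂ 1) s p)⁻¹) := by
      funext p
      by_cases hp : p.Prime
      · rw [if_pos hp, Set.mulIndicator_of_mem (show p ∈ {p : ℕ | p.Prime} from hp)]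
      · rw [if_neg hp, Set.mulIndicator_of_notMem (show p ∉ {p : ℕ | p.Prime} from hp)]
    rw [h3] at h2
    have h4 := hasProd_subtype_iff_mulIndicator.2 h2
    refine h4.unique ?_
    refine (congrArg (fun g => HasProd g (F s)) (funext fun p : Nat.Primes => ?_)).mp (hF2 s hs)
    show _ = (lf N (co f) (1 : DirichletCharacter ℂ 1) s (p : ℕ))⁻¹
    unfold lf ez
    have hc1 : (1 : DirichletCharacter ℂ 1) ((p : ℕ) : ZMod 1) = 1 := by
      have : (((p : ℕ) : ZMod 1)) = 1 := Subsingleton.elim _ _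
      rw [this, map_one]
    rw [hc1]
    congr 2
    split_ifs with h
    · simp
    · have hp0 : ((p : ℕ) : ℂ) ≠ 0 := by exact_mod_cast p.2.ne_zero
      have e : ((p : ℕ) : ℂ) ^ (1 - 2 * s) = (p : ℕ) * (((p : ℕ) : ℂ) ^ (-s)) ^ 2 := by
        rw [show (1 - 2 * s : ℂ) = 1 + ((-s) + (-s)) by ring, Complex.cpow_add _ _ hp0,
          Complex.cpow_add _ _ hp0, Complex.cpow_one]
        ring
      rw [e]
  have hA : AnalyticOnNhd ℂ L Set.univ := fun s _ => hL1.analyticAt s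
  have hB : AnalyticOnNhd ℂ F Set.univ := fun s _ => hF1.analyticAt s
  have hopen : IsOpen {s : ℂ | (3 : ℝ) / 2 < s.re} := isOpen_lt continuous_const
    Complex.continuous_re
  have hev : L =ᶠ[nhds (2 : ℂ)] F := by
    filter_upwards [hopen.mem_nhds (show (2 : ℂ) ∈ {s : ℂ | (3 : ℝ) / 2 < s.re} by
      show (3 : ℝ) / 2 < (2 : ℂ).re
      norm_num)] with s hs
    exact hLF s hs
  have hLF' : L = F := hA.eq_of_eventuallyEq hB hev
  have hg : gaussSum (1 : DirichletCharacter ℂ 1)⁻¹ (ZMod.stdAddChar (N := 1)) = 1 := by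
    unfold gaussSum
    rw [Fintype.sum_subsingleton _ (1 : ZMod 1), map_one, one_mul]
    have : (1 : ZMod 1) = 0 := Subsingleton.elim _ _
    rw [this, AddChar.map_zero_eq_one]
  have hs1 : ∑ u : (ZMod 1)ˣ, (1 : DirichletCharacter ℂ 1)⁻¹ (u : ZMod 1) *
      bv f (((u : ZMod 1).val : ℚ) / (1 : ℕ)) = bv f 0 := by
    rw [Fintype.sum_unique]
    have h4 : ((default : (ZMod 1)ˣ) : ZMod 1).val = 0 := by
      have := ZMod.val_lt ((default : (ZMod 1)ˣ) : ZMod 1)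
      omega
    have h5 : ((default : (ZMod 1)ˣ) : ZMod 1) = 1 := Subsingleton.elim _ _
    rw [h4, h5, map_one, one_mul]
    norm_num
  rw [hg, one_mul, hs1, hLF'] at hL3
  rw [← hL3]
  exact hF3

/-! ### fields -/

variable (N) in
/-- the `L`-function over `F` is entire and does not vanish at `s = 1` -/
def RZF (F : IntermediateField ℚ ℂ) [NumberField F]
    (f : CuspForm (Gamma0 N : Subgroup (GL (Fin 2) ℝ)) 2) : Prop :=
  ∃ G : ℂ → ℂ, Differentiable ℂ G ∧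
    (∀ s : ℂ, 3 / 2 < s.re → HasProd (fc (K := F) N (co f) s) (G s)) ∧ G 1 ≠ 0

open Classical in
/-- **The `L`-function over a subfield of a cyclotomic field.** -/
theorem core_cyc (hf : IsNf N f)
    (H0 : Subgroup Fam) (S0 : Finset ℕ) (hS0 : ∀ q ∈ S0, q.Prime ∧ ¬ q ∣ N)
    (hH : ∀ c ∈ H0, (∀ q, q ∉ S0 → c q = 1) → bt (bv f) c ≠ 0)
    (n : ℕ) [NeZero n] (hn : dd S0 ∣ n) (L : Type) [Field L] [NumberField L]
    [IsCyclotomicExtension {n} ℚ L] (F : IntermediateField ℚ L)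
    (hF : F ≤ IntermediateField.adjoin ℚ {x : L | ∃ c ∈ H0, (∀ q, q ∉ S0 → c q = 1) ∧
      ∃ z : L, z ^ dd (sp c) = 1 ∧ x = eta c z}) :
    ∃ G : ℂ → ℂ, Differentiable ℂ G ∧
      (∀ s : ℂ, 3 / 2 < s.re → HasProd (fc (K := F) N (co f) s) (G s)) ∧ G 1 ≠ 0 := by
  obtain ⟨w, hnf, hfr⟩ := hf.newf
  have h1 : ∀ χ : DirichletCharacter ℂ n, ∃ G : ℂ → ℂ, χ ∈ YY n L F → Differentiable ℂ G ∧
      (∀ s : ℂ, 3 / 2 < s.re → HasProd (fun p : Nat.Primes => ez N (co f) (pv n χ p) s p) (G s)) ∧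
      G 1 ≠ 0 := by
    intro χ
    by_cases hχ : χ ∈ YY n L F
    · obtain ⟨c, hc, hcS, hval⟩ := Yc_sub n L H0 S0 (fun q hq => (hS0 q hq).1) hn F hF hχ
      obtain ⟨hfin, hsub⟩ := sp_sub S0 hcS
      obtain ⟨G, hG1, hG2, hG3⟩ := tw_complete hnf hfr hf.cf hfin fun q hq => hS0 q (hsub hq)
      refine ⟨G, fun _ => ⟨hG1, fun s hs => ?_, hG3 (hH _ (H0.inv_mem hc) fun q hq => ?_)⟩⟩
      · have h2 := hG2 s hs
        refine (congrArg (fun g => HasProd g (G s)) (funext fun p : Nat.Primes => ?_)).mp h2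
        rw [pv_cvl n S0 hcS (fun q hq => (hS0 q hq).1) hn hval]
      · have h3 : (c⁻¹ : Fam) q = (c q)⁻¹ := rfl
        rw [h3, hcS q hq]
        ext x
        simp
    · exact ⟨0, fun h => absurd h hχ⟩
  choose G hG using h1
  refine ⟨fun s => ∏ χ : YY n L F, G χ s, ?_, fun s hs => ?_, ?_⟩
  · exact Differentiable.fun_finsetProd fun χ _ => (hG χ.1 χ.2).1
  · exact hasProd_fc (NeZero.ne N) hf.cf n L F G s hs fun χ hχ => (hG χ hχ).2.1 s hs
  · exact Finset.prod_ne_zero_iff.2 fun χ _ => (hG χ.1 χ.2).2.2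

/-- **The `L`-function over a number field contained in the field of the periods.** -/
theorem core (hf : IsNf N f)
    (H0 : Subgroup Fam) (hfin : ∀ c ∈ H0, {q | c q ≠ 1}.Finite)
    (hH0 : ∀ c ∈ H0, ∀ q, c q ≠ 1 → q.Prime ∧ ¬ q ∣ N)
    (hH : ∀ c ∈ H0, bt (bv f) c ≠ 0)
    (F : IntermediateField ℚ ℂ) [NumberField F]
    (hF : F ≤ IntermediateField.adjoin ℚ {x : ℂ | ∃ c ∈ H0,
      x = eta c (Complex.exp (2 * Real.pi * Complex.I / (dd (sp c) : ℕ)))}) : RZF N F f := by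
  classical
  obtain ⟨Z0, hZ1, hZ2⟩ := finite_gen F _ hF
  have h1 : ∀ z : ℂ, ∃ c : Fam, c ∈ H0 ∧ (z ∈ Z0 →
      z = eta c (Complex.exp (2 * Real.pi * Complex.I / (dd (sp c) : ℕ)))) := by
    intro z
    by_cases hz : z ∈ Z0
    · obtain ⟨c, hc, h⟩ := hZ1 hz
      exact ⟨c, hc, fun _ => h⟩
    · exact ⟨1, H0.one_mem, fun h => absurd h hz⟩
  choose c hcH hc using h1
  set S0 : Finset ℕ := Z0.biUnion fun z => sp (c z) with hS0
  have hS0X : ∀ q ∈ S0, q.Prime ∧ ¬ q ∣ N := by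
    intro q hq
    rw [hS0, Finset.mem_biUnion] at hq
    obtain ⟨z, hz, hqz⟩ := hq
    exact hH0 _ (hcH z) q ((mem_sp (hfin _ (hcH z)) q).1 hqz)
  set n : ℕ := dd S0 with hn
  have hn0 : NeZero n := ⟨dd_ne_zero fun q hq => (hS0X q hq).1⟩
  let L := CyclotomicField n ℚ
  have hcyc : IsCyclotomicExtension {n} ℚ L := CyclotomicField.isCyclotomicExtension n ℚ
  let φ : L →ₐ[ℚ] ℂ := IsAlgClosed.lift
  have hζ := IsCyclotomicExtension.zeta_spec n ℚ L
  have hζφ : IsPrimitiveRoot (φ (IsCyclotomicExtension.zeta n ℚ L)) n :=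
    hζ.map_of_injective φ.toRingHom.injective
  have hroot : ∀ y : ℂ, y ^ n = 1 → ∃ z : L, φ z = y ∧ z ^ n = 1 := by
    intro y hy
    obtain ⟨i, -, hi⟩ := hζφ.eq_pow_of_pow_eq_one hy
    refine ⟨IsCyclotomicExtension.zeta n ℚ L ^ i, ?_, ?_⟩
    · rw [map_pow, hi]
    · rw [← pow_mul, mul_comm, pow_mul, hζ.pow_eq_one, one_pow]
  set ZL : Set L := {x : L | ∃ c ∈ H0, (∀ q, q ∉ S0 → c q = 1) ∧
      ∃ z : L, z ^ dd (sp c) = 1 ∧ x = eta c z} with hZL
  have hadj : F ≤ (IntermediateField.adjoin ℚ ZL).map φ := by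
    refine hZ2.trans ?_
    rw [IntermediateField.adjoin_map]
    refine IntermediateField.adjoin.mono ℚ _ _ ?_
    intro z hz
    have hz' : z ∈ Z0 := hz
    have hsub : sp (c z) ⊆ S0 := Finset.subset_biUnion_of_mem (fun z => sp (c z)) hz'
    have hM0 : dd (sp (c z)) ≠ 0 := dd_ne_zero fun q hq => (hS0X q (hsub hq)).1
    set M := dd (sp (c z)) with hM
    set y : ℂ := Complex.exp (2 * Real.pi * Complex.I / (M : ℕ)) with hy
    have hyM : y ^ M = 1 := (Complex.isPrimitiveRoot_exp M hM0).pow_eq_one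
    obtain ⟨k, hk⟩ : M ∣ n := dd_dvd hsub
    have hyn : y ^ n = 1 := by rw [hk, pow_mul, hyM, one_pow]
    obtain ⟨x, hx1, hx2⟩ := hroot y hyn
    refine ⟨eta (c z) x, ⟨c z, hcH z, fun q hq => ?_, x, ?_, rfl⟩, ?_⟩
    · by_contra h
      exact hq (hsub ((mem_sp (hfin _ (hcH z)) q).2 h))
    · apply φ.toRingHom.injective
      show φ _ = φ _
      rw [map_pow, map_one, hx1]
      exact hyM
    · show φ (eta (c z) x) = z
      refine Eq.trans ?_ (hc z hz').symm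
      unfold eta
      rw [map_sum]
      refine Finset.sum_congr rfl fun u _ => ?_
      rw [map_pow, hx1]
  set F' : IntermediateField ℚ L := F.comap φ with hF'
  have hF'le : F' ≤ IntermediateField.adjoin ℚ ZL := by
    intro x hx
    have h2 : φ x ∈ F := hx
    obtain ⟨y, hy, hyx⟩ := hadj h2
    have h3 : y = x := φ.toRingHom.injective hyx
    rw [← h3]
    exact hy
  obtain ⟨G, hG1, hG2, hG3⟩ := core_cyc hf H0 S0 hS0X (fun c hc _ => hH c hc) n dvd_rfl L F'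
    hF'le
  let ψ : F' →+* F :=
    { toFun := fun x => ⟨φ x.1, x.2⟩
      map_one' := Subtype.ext (map_one φ)
      map_mul' := fun x y => Subtype.ext (map_mul φ x.1 y.1)
      map_zero' := Subtype.ext (map_zero φ)
      map_add' := fun x y => Subtype.ext (map_add φ x.1 y.1) }
  have hψ : Function.Bijective ψ := by
    refine ⟨ψ.injective, fun y => ?_⟩
    obtain ⟨x, -, hx⟩ := hadj y.2
    exact ⟨⟨x, by
      show φ x ∈ F
      have : φ x = y := hx
      rw [this]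
      exact y.2⟩, Subtype.ext hx⟩
  let e : F' ≃+* F := RingEquiv.ofBijective ψ hψ
  refine ⟨G, hG1, fun s hs => ?_, hG3⟩
  exact hasProd_fc_plE (NumberField.RingOfIntegers.mapRingEquiv e) N (co f) s (G s) (hG2 s hs)

end Pool.Agent.Q6.NW
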