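import Pool.Agent.Y18.LP.Gd

/-!
Counting characters by their conductors.
-/

set_option autoImplicit false

namespace Pool.Agent.Q6.NW

open Pool.Agent.Y18.BSD Pool.Agent.Y18.LP

/-- counting: a set such that finitely many translates cover is large -/
theorem count_abs {G : Type} [Group G] (A : ℕ → Set G) (hA : ∀ X, (A X).Finite) (K : Finset G)
    (B : ℕ) (hAK : ∀ X, ∀ c ∈ A X, ∀ k ∈ K, c * k ∈ A (B * X)) (P : G → Prop)
    (hP : ∀ X, ∀ c ∈ A X, ∃ k ∈ K, P (c * k)) (X : ℕ) :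
    (A X).ncard ≤ K.card * {c : G | c ∈ A (B * X) ∧ P c}.ncard := by
  classical
  have hch : ∀ c : G, ∃ k : G, c ∈ A X → k ∈ K ∧ P (c * k) := fun c => by
    by_cases hc : c ∈ A X
    · obtain ⟨k, h1, h2⟩ := hP X c hc
      exact ⟨k, fun _ => ⟨h1, h2⟩⟩
    · exact ⟨1, fun h => absurd h hc⟩
  choose k hk using hch
  have hfin : {c : G | c ∈ A (B * X) ∧ P c}.Finite := (hA (B * X)).subset fun c hc => hc.1
  have h1 : (A X).ncard ≤ ((K : Set G) ×ˢ {c : G | c ∈ A (B * X) ∧ P c}).ncard := by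
    refine Set.ncard_le_ncard_of_injOn (fun c => (k c, c * k c)) ?_ ?_
      ((K.finite_toSet).prod hfin)
    · intro c hc
      exact ⟨(hk c hc).1, hAK X c hc _ (hk c hc).1, (hk c hc).2⟩
    · intro c _ c' _ h
      have h2 : k c = k c' := congrArg Prod.fst h
      have h3 : c * k c = c' * k c' := congrArg Prod.snd h
      rw [h2] at h3
      exact mul_right_cancel h3
  rw [Set.ncard_prod, Set.ncard_coe_finset] at h1
  exact h1

lemma sp_mul {c k : Fam} (hc : {q | c q ≠ 1}.Finite) (hk : {q | k q ≠ 1}.Finite) :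
    {q | (c * k) q ≠ 1}.Finite ∧ sp (c * k) ⊆ sp c ∪ sp k := by
  have h0 : {q | (c * k) q ≠ 1} ⊆ {q | c q ≠ 1} ∪ {q | k q ≠ 1} := by
    intro q hq
    by_contra h
    rw [Set.mem_union, not_or] at h
    have h1 : c q = 1 := not_not.1 h.1
    have h2 : k q = 1 := not_not.1 h.2
    apply hq
    show c q * k q = 1
    rw [h1, h2]
    exact mul_one (1 : (ZMod q)ˣ →* ℂˣ)
  have hf : {q | (c * k) q ≠ 1}.Finite := (hc.union hk).subset h0
  refine ⟨hf, fun q hq => ?_⟩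
  have h1 := h0 ((mem_sp hf q).1 hq)
  rw [Finset.mem_union, mem_sp hc, mem_sp hk]
  exact h1

lemma dd_mul_le {c k : Fam} (hc : {q | c q ≠ 1}.Finite) (hk : {q | k q ≠ 1}.Finite)
    (hcp : ∀ q, c q ≠ 1 → q.Prime) (hkp : ∀ q, k q ≠ 1 → q.Prime) :
    dd (sp (c * k)) ≤ dd (sp c) * dd (sp k) := by
  classical
  have h1 : ∀ q ∈ sp c ∪ sp k, q.Prime := by
    intro q hq
    rw [Finset.mem_union, mem_sp hc, mem_sp hk] at hq
    exact hq.elim (hcp q) (hkp q)
  have h2 : dd (sp (c * k)) ≤ dd (sp c ∪ sp k) :=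
    Finset.prod_le_prod_of_subset_of_one_le' (sp_mul hc hk).2 fun q hq _ => (h1 q hq).one_lt.le
  have h3 : dd (sp c ∪ sp k) * dd (sp c ∩ sp k) = dd (sp c) * dd (sp k) :=
    Finset.prod_union_inter
  have h4 : 1 ≤ dd (sp c ∩ sp k) :=
    Finset.one_le_prod' fun q hq => (h1 q (Finset.mem_union_left _
      (Finset.mem_inter.1 hq).1)).one_lt.le
  calc dd (sp (c * k)) ≤ dd (sp c ∪ sp k) * 1 := by rw [mul_one]; exact h2
    _ ≤ dd (sp c ∪ sp k) * dd (sp c ∩ sp k) := Nat.mul_le_mul_left _ h4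
    _ = _ := h3

/-- finiteness of the set of characters of bounded conductor -/
lemma fin_cond (H : Subgroup Fam) (hfin : ∀ c ∈ H, {q | c q ≠ 1}.Finite)
    (hp : ∀ c ∈ H, ∀ q, c q ≠ 1 → q.Prime) (X : ℕ) : {c : Fam | c ∈ H ∧ dd (sp c) ≤ X}.Finite := by
  classical
  let ρ : Fam → ((q : Fin (X + 1)) → (ZMod (q : ℕ))ˣ →* ℂˣ) := fun c q => c q
  have hsmall : ∀ c ∈ {c : Fam | c ∈ H ∧ dd (sp c) ≤ X}, ∀ q, X < q → c q = 1 := by
    intro c hc q hq
    by_contra h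
    have h1 : q ∈ sp c := (mem_sp (hfin c hc.1) q).2 h
    have h2 : q ∣ dd (sp c) := Finset.dvd_prod_of_mem _ h1
    have h3 : 0 < dd (sp c) := Finset.prod_pos fun r hr =>
      (hp c hc.1 r ((mem_sp (hfin c hc.1) r).1 hr)).pos
    have h4 := Nat.le_of_dvd h3 h2
    have h5 := hc.2
    omega
  refine Set.Finite.of_injOn (f := ρ) (t := Set.univ) (fun _ _ => Set.mem_univ _) ?_ ?_
  · intro c hc c' hc' h
    funext q
    by_cases hq : X < q
    · rw [hsmall c hc q hq, hsmall c' hc' q hq]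
    · exact congrFun h ⟨q, by omega⟩
  · have hfinq : ∀ q : Fin (X + 1), Finite ((ZMod (q : ℕ))ˣ →* ℂˣ) := by
      rintro ⟨q, hq⟩
      rcases Nat.eq_zero_or_pos q with h | h
      · subst h
        have : Finite (ZMod 0)ˣ := inferInstanceAs (Finite ℤˣ)
        infer_instance
      · have : NeZero q := ⟨h.ne'⟩
        infer_instance
    exact Set.finite_univ

/-- **Counting by the conductor.** -/
theorem count_cond (H : Subgroup Fam) (hfin : ∀ c ∈ H, {q | c q ≠ 1}.Finite)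
    (hp : ∀ c ∈ H, ∀ q, c q ≠ 1 → q.Prime) {r M : ℕ} (K : Finset (Fin r → Fam)) (hK : K.card ≤ M)
    (hKH : ∀ k ∈ K, ∀ j, k j ∈ H) (P : (Fin r → Fam) → Prop)
    (hP : ∀ c : Fin r → Fam, (∀ j, c j ∈ H) → ∃ k ∈ K, P (fun j => c j * k j)) :
    ∃ B : ℕ, ∀ X : ℕ, {c : Fin r → Fam | ∀ j, c j ∈ H ∧ dd (sp (c j)) ≤ X}.ncard ≤
      M * {c : Fin r → Fam | (∀ j, c j ∈ H ∧ dd (sp (c j)) ≤ B * X) ∧ P c}.ncard := by
  classical
  set B : ℕ := ∑ k ∈ K, ∑ j, dd (sp (k j)) with hB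
  refine ⟨B, fun X => ?_⟩
  have h1 := count_abs (fun X => {c : Fin r → Fam | ∀ j, c j ∈ H ∧ dd (sp (c j)) ≤ X})
    (fun X => Set.Finite.pi' fun _ => fin_cond H hfin hp X) K B (by
      intro X c hc k hk j
      refine ⟨H.mul_mem (hc j).1 (hKH k hk j), ?_⟩
      show dd (sp (c j * k j)) ≤ _
      have h2 := dd_mul_le (hfin _ (hc j).1) (hfin _ (hKH k hk j)) (hp _ (hc j).1)
        (hp _ (hKH k hk j))
      have h3 : dd (sp (k j)) ≤ B := by
        calc dd (sp (k j)) ≤ ∑ j, dd (sp (k j)) :=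
              Finset.single_le_sum (f := fun j => dd (sp (k j))) (fun _ _ => Nat.zero_le _)
                (Finset.mem_univ j)
          _ ≤ B := Finset.single_le_sum (f := fun k => ∑ j, dd (sp (k j)))
              (fun _ _ => Nat.zero_le _) hk
      calc dd (sp (c j * k j)) ≤ dd (sp (c j)) * dd (sp (k j)) := h2
        _ ≤ X * B := Nat.mul_le_mul (hc j).2 h3
        _ = B * X := mul_comm _ _) P (by
      intro X c hc
      obtain ⟨k, hk, h⟩ := hP c fun j => (hc j).1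
      exact ⟨k, hk, h⟩) X
  exact h1.trans (Nat.mul_le_mul_right _ hK)

end Pool.Agent.Q6.NW
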