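import Pool.Agent.Y18.LP.Fld
import Pool.Agent.Y18.LP.Nf
import Pool.Agent.Y18.NF.Tr

/-!
The Euler product of a newform of weight two over a subfield of a cyclotomic field
(after `W165.CE.Euler` and `Pool.Agent.Y18.NF.Eu`, where the newform is that of an elliptic curve).
-/

set_option autoImplicit false

open NumberField IsDedekindDomain H300.HW UpperHalfPlane MatrixGroups CongruenceSubgroup Filter

namespace Pool.Agent.Q6.NW

open Pool.Agent.Y18.BSD
open Pool.Agent.Y18.NF (ez plE)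
open Pool.Agent.H921R2.TatePole
open Pool.Agent.H82R3.EK (nm_cpow prime_cpow)
open W165.CE (pw finite_bad)
open Pool.Agent.Y702.L (pv local_quad)

section
variable {K : Type} [Field K] [NumberField K]

open Classical in
/-- the Euler factor at `v` of the newform of level `N` with the coefficients `c` -/
noncomputable def fc (N : ℕ) (c : ℕ → ℂ) (s : ℂ) (v : HeightOneSpectrum (𝓞 K)) : ℂ :=
  (1 - pw (c (Ideal.absNorm v.asIdeal).minFac)
        (if (Ideal.absNorm v.asIdeal).minFac ∣ N then 0 else ((Ideal.absNorm v.asIdeal).minFac : ℂ))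
        ((Ideal.absNorm v.asIdeal).factorization (Ideal.absNorm v.asIdeal).minFac)
        * ((Ideal.absNorm v.asIdeal : ℕ) : ℂ) ^ (-s)
    + (if (Ideal.absNorm v.asIdeal).minFac ∣ N then (0 : ℂ) else
        ((Ideal.absNorm v.asIdeal : ℕ) : ℂ) ^ (1 - 2 * s)))⁻¹

open Classical in
/-- the factor in terms of the prime below -/
lemma fc_eq {N : ℕ} {c : ℕ → ℂ} (v : HeightOneSpectrum (𝓞 K)) (s : ℂ) :
    fc N c s v = (1 - pw (c (below v)) (if (below v : ℕ) ∣ N then 0 else ((below v : ℕ) : ℂ))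
        (deg v) * (((below v : ℕ) : ℂ) ^ (-s)) ^ deg v +
      (if (below v : ℕ) ∣ N then 0 else ((below v : ℕ) : ℂ)) ^ deg v *
        (((below v : ℕ) : ℂ) ^ (-s)) ^ (2 * deg v))⁻¹ := by
  have hdeg : deg v ≠ 0 := (nm_eq v).2.1.ne'
  have hpc : ((Ideal.absNorm v.asIdeal : ℕ) : ℂ) ^ (1 - 2 * s) =
      (((below v : ℕ) : ℂ)) ^ deg v * (((below v : ℕ) : ℂ) ^ (-s)) ^ (2 * deg v) := by
    rw [nm_cpow, prime_cpow _ (below v).2.ne_zero, mul_pow, ← pow_mul]
  have hb : (Ideal.absNorm v.asIdeal).minFac = (below v : ℕ) := rfl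
  have hd : (Ideal.absNorm v.asIdeal).factorization (Ideal.absNorm v.asIdeal).minFac = deg v := rfl
  unfold fc
  rw [hd, hb]
  by_cases h2 : (below v : ℕ) ∣ N
  · rw [if_pos h2, if_pos h2, nm_cpow, zero_pow hdeg, zero_mul]
  · rw [if_neg h2, if_neg h2, hpc, nm_cpow]

/-- the bound for the power sums -/
lemma pw_bound {N : ℕ} {c : ℕ → ℂ} (hc : Cf N c) {p : ℕ} (hp : p.Prime) (hpN : ¬ p ∣ N) (n : ℕ) :
    ‖pw (c p) (p : ℂ) n‖ ≤ 2 * Real.sqrt p ^ n := by
  have hp0 : (0 : ℝ) < p := by exact_mod_cast hp.pos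
  have him : c p = ((c p).re : ℂ) := by
    apply Complex.ext
    · simp
    · simp [hc.real p]
  have hb := hc.good p hp hpN
  rw [him, Complex.norm_real, Real.norm_eq_abs] at hb
  obtain ⟨α, β, hα, hβ, hs, hm⟩ := Pool.Agent.Y18.BSD.exists_roots' hp0 hb
  rw [him, W165.CE.pw_eq hs (by rw [hm]; simp) n]
  calc ‖α ^ n + β ^ n‖ ≤ ‖α ^ n‖ + ‖β ^ n‖ := norm_add_le _ _
    _ = 2 * Real.sqrt p ^ n := by rw [norm_pow, norm_pow, hα, hβ]; ring

/-- the part of the factor different from one -/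
lemma fc_sub_bound {N : ℕ} {c : ℕ → ℂ} (hc : Cf N c) (v : HeightOneSpectrum (𝓞 K))
    (hv : ¬ ((below v : ℕ) : ℤ) ∣ (N : ℤ)) (s : ℂ) (hs : 3 / 2 < s.re)
    (hsmall : (nm v : ℝ) ^ (-(s.re - 1 / 2)) ≤ 1 / 6) :
    ‖fc N c s v - 1‖ ≤ 6 * (nm v : ℝ) ^ (-(s.re - 1 / 2)) := by
  have hn0 : (0 : ℝ) < nm v := by
    have := two_le_nm v
    exact_mod_cast (by omega : 0 < nm v)
  have hn1 : (1 : ℝ) ≤ nm v := by
    have := two_le_nm v
    exact_mod_cast (by omega : 1 ≤ nm v)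
  have hvN : ¬ (below v : ℕ) ∣ N := fun h => hv (by exact_mod_cast h)
  have hb0 := pw_bound hc (below v).2 hvN (deg v)
  have hnm : (nm v : ℝ) = ((below v : ℕ) : ℝ) ^ deg v := by
    have := (nm_eq v).1
    exact_mod_cast this
  have hsq : Real.sqrt ((below v : ℕ) : ℝ) ^ deg v = Real.sqrt (nm v) := by
    rw [hnm, Real.sqrt_eq_rpow, Real.sqrt_eq_rpow, ← Real.rpow_natCast, ← Real.rpow_mul (by positivity),
      ← Real.rpow_natCast, ← Real.rpow_mul (by positivity), mul_comm]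
  rw [hsq] at hb0
  have hb : (Ideal.absNorm v.asIdeal).minFac = (below v : ℕ) := rfl
  have hd : (Ideal.absNorm v.asIdeal).factorization (Ideal.absNorm v.asIdeal).minFac = deg v := rfl
  unfold fc
  rw [hd, hb, if_neg hvN, if_neg hvN]
  set t : ℂ := pw (c (below v)) (((below v : ℕ) : ℂ)) (deg v) with ht
  set w : ℝ := (nm v : ℝ) ^ (-(s.re - 1 / 2)) with hw
  have e1 : ‖((Ideal.absNorm v.asIdeal : ℕ) : ℂ) ^ (-s)‖ = (nm v : ℝ) ^ (-s.re) := by
    have := Complex.norm_natCast_cpow_of_pos (n := nm v) (by exact_mod_cast hn0) (-s)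
    rw [Complex.neg_re] at this
    exact this
  have e2 : ‖((Ideal.absNorm v.asIdeal : ℕ) : ℂ) ^ (1 - 2 * s)‖ = (nm v : ℝ) ^ (1 - 2 * s.re) := by
    have := Complex.norm_natCast_cpow_of_pos (n := nm v) (by exact_mod_cast hn0) (1 - 2 * s)
    have h2 : (1 - 2 * s).re = 1 - 2 * s.re := by simp
    rw [h2] at this
    exact this
  set u : ℂ := -(t * ((Ideal.absNorm v.asIdeal : ℕ) : ℂ) ^ (-s)) +
    ((Ideal.absNorm v.asIdeal : ℕ) : ℂ) ^ (1 - 2 * s) with hu
  have hu1 : ‖u‖ ≤ 3 * w := by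
    have h1 : ‖t * ((Ideal.absNorm v.asIdeal : ℕ) : ℂ) ^ (-s)‖ ≤ 2 * w := by
      rw [norm_mul, e1]
      calc ‖t‖ * (nm v : ℝ) ^ (-s.re) ≤ (2 * Real.sqrt (nm v)) * (nm v : ℝ) ^ (-s.re) :=
            mul_le_mul_of_nonneg_right hb0 (by positivity)
        _ = 2 * w := by
            rw [hw, Real.sqrt_eq_rpow, mul_assoc, ← Real.rpow_add hn0]
            congr 2
            ring
    have h2 : ‖((Ideal.absNorm v.asIdeal : ℕ) : ℂ) ^ (1 - 2 * s)‖ ≤ w := by
      rw [e2, hw]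
      apply Real.rpow_le_rpow_of_exponent_le hn1
      linarith
    calc ‖u‖ ≤ ‖-(t * ((Ideal.absNorm v.asIdeal : ℕ) : ℂ) ^ (-s))‖ + _ := norm_add_le _ _
      _ ≤ 2 * w + w := add_le_add (by rwa [norm_neg]) h2
      _ = 3 * w := by ring
  have e3 : (1 - t * ((Ideal.absNorm v.asIdeal : ℕ) : ℂ) ^ (-s) +
    ((Ideal.absNorm v.asIdeal : ℕ) : ℂ) ^ (1 - 2 * s)) = 1 + u := by rw [hu]; ring
  rw [e3]
  have hu2 : ‖u‖ ≤ 1 / 2 := by linarith
  have h3 : 1 / 2 ≤ ‖1 + u‖ := by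
    have := norm_sub_norm_le (1 : ℂ) (-u)
    rw [sub_neg_eq_add, norm_neg, norm_one] at this
    linarith
  have hne : 1 + u ≠ 0 := by
    intro h
    rw [h, norm_zero] at h3
    linarith
  have e4 : (1 + u)⁻¹ - 1 = -u / (1 + u) := by field_simp; ring
  rw [e4, norm_div, norm_neg, div_le_iff₀ (by linarith)]
  nlinarith [norm_nonneg u]

lemma multipliable_fc {N : ℕ} (hN : N ≠ 0) {c : ℕ → ℂ} (hc : Cf N c) (s : ℂ)
    (hs : 3 / 2 < s.re) : Multipliable (fc (K := K) N c s) := by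
  have hsum := nm_summable (K := K) (x := s.re - 1 / 2) (by linarith)
  have h1 : Summable (fun v : HeightOneSpectrum (𝓞 K) => ‖fc N c s v - 1‖) := by
    refine Summable.of_norm_bounded_eventually (hsum.mul_left 6) ?_
    have h2 := hsum.tendsto_cofinite_zero.eventually (Iio_mem_nhds (by norm_num : (0 : ℝ) < 1 / 6))
    have h3 : ∀ᶠ v : HeightOneSpectrum (𝓞 K) in cofinite,
        ¬ ((below v : ℕ) : ℤ) ∣ (N : ℤ) := by
      rw [Filter.eventually_cofinite]
      simp only [not_not]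
      exact finite_bad _ (by exact_mod_cast hN)
    filter_upwards [h2, h3] with v hv hv3
    rw [norm_norm]
    exact fc_sub_bound hc v hv3 s hs (le_of_lt hv)
  have h2 := multipliable_one_add_of_summable h1
  refine h2.congr (fun v => ?_)
  ring

end

open Classical in
/-- the Euler product over a subfield of a cyclotomic field -/
theorem hasProd_fc {N : ℕ} (hN : N ≠ 0) {c : ℕ → ℂ} (hc : Cf N c)
    (n : ℕ) [NeZero n] (L : Type) [Field L] [NumberField L] [IsCyclotomicExtension {n} ℚ L]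
    (F : IntermediateField ℚ L) (G : DirichletCharacter ℂ n → ℂ → ℂ) (s : ℂ) (hs : 3 / 2 < s.re)
    (hG : ∀ χ ∈ YY n L F, HasProd (fun p : Nat.Primes => ez N c (pv n χ p) s p) (G χ s)) :
    HasProd (fc (K := F) N c s) (∏ χ : YY n L F, G χ s) := by
  have h1 : HasProd (fun p : Nat.Primes => ∏ χ : YY n L F, ez N c (pv n χ.1 p) s p)
      (∏ χ : YY n L F, G χ s) := by
    apply hasProd_prod
    intro χ _
    exact hG χ.1 χ.2
  have h2 : ∀ p : Nat.Primes, ∏ χ : YY n L F, ez N c (pv n χ.1 p) s p =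
      ∏ v : {v : HeightOneSpectrum (𝓞 F) // below v = p}, fc N c s v.1 := by
    intro p
    have h3 : ∀ v : {v : HeightOneSpectrum (𝓞 F) // below v = p}, fc N c s v.1 =
        (1 - pw (c p) (if (p : ℕ) ∣ N then 0 else ((p : ℕ) : ℂ)) (deg v.1) *
            (((p : ℕ) : ℂ) ^ (-s)) ^ deg v.1 +
          (if (p : ℕ) ∣ N then 0 else ((p : ℕ) : ℂ)) ^ deg v.1 *
            (((p : ℕ) : ℂ) ^ (-s)) ^ (2 * deg v.1))⁻¹ := by
      rintro ⟨v, hv⟩
      subst hv
      exact fc_eq v s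
    rw [Finset.prod_congr rfl (fun v _ => h3 v), Finset.prod_inv_distrib,
      local_quad n L F p (c p) (if (p : ℕ) ∣ N then 0 else ((p : ℕ) : ℂ)) (((p : ℕ) : ℂ) ^ (-s)),
      ← Finset.prod_inv_distrib]
    rfl
  simp_rw [h2] at h1
  have h3 : Multipliable (fc (K := F) N c s) := multipliable_fc hN hc s hs
  rw [← (Equiv.sigmaFiberEquiv (below (K := F))).hasProd_iff]
  refine HasProd.sigma_of_hasProd h1 (fun p => ?_) ?_
  · exact hasProd_fintype _
  · exact (Equiv.sigmaFiberEquiv (below (K := F))).multipliable_iff.2 h3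

section transport
variable {K K' : Type} [Field K] [NumberField K] [Field K'] [NumberField K']

lemma fc_plE (e : 𝓞 K ≃+* 𝓞 K') (N : ℕ) (c : ℕ → ℂ) (s : ℂ)
    (v : HeightOneSpectrum (𝓞 K)) : fc N c s (plE e v) = fc N c s v := by
  unfold fc
  rw [Pool.Agent.Y18.NF.absNorm_plE]

lemma hasProd_fc_plE (e : 𝓞 K ≃+* 𝓞 K') (N : ℕ) (c : ℕ → ℂ) (s z : ℂ)
    (h : HasProd (fc (K := K) N c s) z) : HasProd (fc (K := K') N c s) z := by
  rw [← (plE e).hasProd_iff]
  refine (congrArg (fun g => HasProd g z) (funext fun v => ?_)).mp h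
  exact (fc_plE e N c s v).symm

end transport

end Pool.Agent.Q6.NW
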