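import Pool.Agent.Q6.NW.Core

/-!
Several newforms of weight two over abelian fields of exponent a power of `l`: infinite towers, and
fields with `r` generators (after `Pool.Agent.Y18.LP.Main`).
-/

set_option autoImplicit false

open NumberField IsDedekindDomain UpperHalfPlane MatrixGroups CongruenceSubgroup

namespace Pool.Agent.Q6.NW

open Pool.Agent.Y18.BSD Pool.Agent.Y18.LP

/-- admissible primes for the prime ideal `lam` of the ring of all algebraic integers -/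
def AdmN {m : ℕ} (N : Fin m → ℕ)
    (f : (i : Fin m) → CuspForm (Gamma0 (N i) : Subgroup (GL (Fin 2) ℝ)) 2)
    (lam : Ideal (integralClosure ℤ ℂ)) (q : ℕ) : Prop :=
  ∀ i, ¬ q ∣ N i ∧ ∀ x ∈ lam, (x : ℂ) ≠ co (f i) q - 2

/-- the conditions on the group -/
structure HN {m : ℕ} (N : Fin m → ℕ)
    (f : (i : Fin m) → CuspForm (Gamma0 (N i) : Subgroup (GL (Fin 2) ℝ)) 2)
    (lam : Ideal (integralClosure ℤ ℂ)) (l n : ℕ) (H : Subgroup Fam) : Prop where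
  pow : ∀ c ∈ H, c ^ (l ^ n) = 1
  fin : ∀ c ∈ H, {q | c q ≠ 1}.Finite
  adm : ∀ c ∈ H, ∀ q, c q ≠ 1 → q.Prime ∧ AdmN N f lam q

lemma inv_aux {G : Type} [CommGroup G] (c k : G) : (c * k⁻¹)⁻¹ = c⁻¹ * k := by
  rw [mul_inv, inv_inv]

section
variable (m : ℕ) (N : Fin m → ℕ) [∀ i, NeZero (N i)]
    (f : (i : Fin m) → CuspForm (Gamma0 (N i) : Subgroup (GL (Fin 2) ℝ)) 2)
    (hf : ∀ i, IsNf (N i) (f i))

lemma ok_of {l n : ℕ} {H : Subgroup Fam} {lam : Ideal (integralClosure ℤ ℂ)}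
    (hH : HN N f lam l n H) : Ok H (l ^ n) (AdS N (fun i => co (f i)) lam) :=
  ⟨hH.pow, hH.fin, fun c hc q hq => ⟨(hH.adm c hc q hq).1, (hH.adm c hc q hq).2⟩⟩

include hf in
/-- **Infinite towers.** -/
theorem tower (h0 : ∀ i, Rk0 (N i) (co (f i))) (l n : ℕ) (hl : l.Prime)
    (lam : Ideal (integralClosure ℤ ℂ)) (h1 : lam.IsPrime) (h2 : (l : integralClosure ℤ ℂ) ∈ lam)
    (H : Subgroup Fam) (hH : HN N f lam l n H) (hinf : (H : Set Fam).Infinite) :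
    ∃ H0 : Subgroup Fam, H0 ≤ H ∧ (H0 : Set Fam).Infinite ∧
      ∀ (F : IntermediateField ℚ ℂ) [NumberField F],
        F ≤ IntermediateField.adjoin ℚ {x : ℂ | ∃ c ∈ H0,
          x = eta c (Complex.exp (2 * Real.pi * Complex.I / (dd (sp c) : ℕ)))} →
        ∀ i, RZF (N i) F (f i) := by
  have hms : ∀ i, MS (N i) (bv (f i)) (co (f i)) := fun i => by
    obtain ⟨w, -, hfr⟩ := (hf i).newf
    exact ms_of (hf i).hrel hfr
  have hv : ∀ i, bv (f i) 0 ≠ 0 := fun i => bv0_ne' (hf i) (h0 i)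
  obtain ⟨H0, -, hH0, hH1, hH2⟩ := infinite hms hv hl n lam h1 h2 H (ok_of m N f hH)
    hinf ⊥ bot_le (by
      intro c hc i
      rw [Subgroup.mem_bot] at hc
      rw [hc, bt_one]
      exact hv i)
  refine ⟨H0, hH0, hH1, fun F _ hF i => ?_⟩
  exact core (hf i) H0 (fun c hc => hH.fin c (hH0 hc)) (fun c hc q hq => by
    obtain ⟨hq1, hq2⟩ := hH.adm c (hH0 hc) q hq
    exact ⟨hq1, (hq2 i).1⟩) (fun c hc => hH2 c hc i) F hF

include hf in
/-- **Abelian fields with `r` generators.** -/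
theorem fields (h0 : ∀ i, Rk0 (N i) (co (f i))) (l n r : ℕ) (hl : l.Prime)
    (lam : Ideal (integralClosure ℤ ℂ)) (h1 : lam.IsPrime)
    (h2 : (l : integralClosure ℤ ℂ) ∈ lam) :
    ∃ V : ℕ, ∀ H : Subgroup Fam, HN N f lam l n H →
      ∃ K : Finset (Fin r → Fam), K.card ≤ 2 ^ V ∧ (∀ k ∈ K, ∀ j, k j ∈ H) ∧
        ∀ c : Fin r → Fam, (∀ j, c j ∈ H) → ∃ k ∈ K,
          ∀ (F : IntermediateField ℚ ℂ) [NumberField F],
            F ≤ IntermediateField.adjoin ℚ {x : ℂ | ∃ J : Fin r → ℕ,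
              x = eta (∏ j, (c j * k j) ^ J j) (Complex.exp (2 * Real.pi * Complex.I /
                (dd (sp (∏ j, (c j * k j) ^ J j)) : ℕ)))} →
            ∀ i, RZF (N i) F (f i) := by
  have hms : ∀ i, MS (N i) (bv (f i)) (co (f i)) := fun i => by
    obtain ⟨w, -, hfr⟩ := (hf i).newf
    exact ms_of (hf i).hrel hfr
  have hv : ∀ i, bv (f i) 0 ≠ 0 := fun i => bv0_ne' (hf i) (h0 i)
  obtain ⟨V, hV⟩ := tuples hms hv hl n lam h1 h2 r
  refine ⟨V, fun H hH => ?_⟩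
  obtain ⟨K, hK1, hK2, hK3⟩ := hV H (ok_of m N f hH)
  refine ⟨K, hK1, hK2, fun c hc => ?_⟩
  obtain ⟨k, hk, h4⟩ := hK3 c hc
  refine ⟨k, hk, fun F _ hF i => ?_⟩
  obtain ⟨H0, hH0H, hrep2, hrep⟩ := closure_tuple' (pow_pos hl.pos n) (fun j => c j * k j)
    (fun j => hH.pow _ (H.mul_mem (hc j) (hK2 k hk j))) H (fun j => H.mul_mem (hc j) (hK2 k hk j))
  refine core (hf i) H0 (fun c hc => hH.fin c (hH0H hc)) (fun c hc q hq => by
    obtain ⟨hq1, hq2⟩ := hH.adm c (hH0H hc) q hq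
    exact ⟨hq1, (hq2 i).1⟩) (fun x hx => ?_) F (hF.trans ?_)
  · obtain ⟨J, rfl⟩ := hrep x hx
    exact h4 J i
  · refine IntermediateField.adjoin.mono ℚ _ _ ?_
    rintro x ⟨J, rfl⟩
    exact ⟨_, hrep2 J, rfl⟩

include hf in
/-- **The twists by the characters.** -/
theorem twists (h0 : ∀ i, Rk0 (N i) (co (f i))) (l n : ℕ) (hl : l.Prime)
    (lam : Ideal (integralClosure ℤ ℂ)) (h1 : lam.IsPrime)
    (h2 : (l : integralClosure ℤ ℂ) ∈ lam) :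
    ∃ V : ℕ, ∀ H : Subgroup Fam, HN N f lam l n H →
      ∃ K : Finset Fam, K.card ≤ 2 ^ V ∧ (∀ k ∈ K, k ∈ H) ∧
        ∀ c ∈ H, ∃ k ∈ K, ∀ i, ∃ G : ℂ → ℂ, Differentiable ℂ G ∧ (∀ s : ℂ, 3 / 2 < s.re →
          HasProd (fun p : Nat.Primes => Pool.Agent.Y18.NF.ez (N i) (co (f i)) (cvl (c * k) p) s p)
            (G s)) ∧ G 1 ≠ 0 := by
  classical
  have hms : ∀ i, MS (N i) (bv (f i)) (co (f i)) := fun i => by
    obtain ⟨w, -, hfr⟩ := (hf i).newf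
    exact ms_of (hf i).hrel hfr
  have hv : ∀ i, bv (f i) 0 ≠ 0 := fun i => bv0_ne' (hf i) (h0 i)
  obtain ⟨V, hV⟩ := corr hms hv hl n lam h1 h2
  refine ⟨V, fun H hH => ?_⟩
  obtain ⟨K, hK1, hK2, hK3⟩ := hV H (ok_of m N f hH)
  refine ⟨K.image fun k => k⁻¹, (Finset.card_image_le).trans hK1, fun k hk => ?_, fun c hc => ?_⟩
  · obtain ⟨k', hk', rfl⟩ := Finset.mem_image.1 hk
    exact H.inv_mem (hK2 k' hk')
  · obtain ⟨k, hk, h3⟩ := hK3 c⁻¹ (H.inv_mem hc)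
    refine ⟨k⁻¹, Finset.mem_image.2 ⟨k, hk, rfl⟩, fun i => ?_⟩
    have hck : c * k⁻¹ ∈ H := H.mul_mem hc (H.inv_mem (hK2 k hk))
    have hfin := hH.fin _ hck
    obtain ⟨w, hnf, hfr⟩ := (hf i).newf
    obtain ⟨G, hG1, hG2, hG3⟩ := tw_complete hnf hfr (hf i).cf hfin fun q hq => by
      obtain ⟨hq1, hq2⟩ := hH.adm _ hck q ((mem_sp hfin q).1 hq)
      exact ⟨hq1, (hq2 i).1⟩
    refine ⟨G, hG1, hG2, hG3 ?_⟩
    have e : (c * k⁻¹ : Fam)⁻¹ = c⁻¹ * k := inv_aux (G := Fam) c k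
    rw [e]
    exact h3 i

end

end Pool.Agent.Q6.NW
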