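import Pool.Agent.Y18.LP.Tup

/-!
The sums of modular symbols for the characters `ψ c`, `ψ` fixed and `c` in a group of families
(after `Pool.Agent.Y18.LP.Gd` and `Pool.Agent.Y18.LP.Abs`, the case `ψ = 1`).
-/

set_option autoImplicit false

namespace Pool.Agent.Q6.NW

open Finset Pool.Agent.Y18.BSD Pool.Agent.Y18.LP

/-- the value at `q` of the character with the components `c p`, `p ∈ T` -/
noncomputable def ev (c : Fam) (T : Finset ℕ) (q : ℕ) : ℂˣ :=
  ∏ p ∈ T, if h : q.Coprime p then c p (ZMod.unitOfCoprime q h) else 1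

lemma XX_ev (c : Fam) (T : Finset ℕ) (M q : ℕ) (hT : ∀ p ∈ T, p ∣ M) (hco : q.Coprime M) :
    XX c T M (ZMod.unitOfCoprime q hco) = ev c T q := by
  rw [XX_apply]
  unfold ev
  refine Finset.prod_congr rfl fun p hp => ?_
  unfold loc
  have h1 : q.Coprime p := Nat.Coprime.coprime_dvd_right (hT p hp) hco
  rw [dif_pos (hT p hp), dif_pos h1, MonoidHom.comp_apply]
  congr 1
  ext
  rw [ZMod.unitsMap_val, ZMod.coe_unitOfCoprime, ZMod.coe_unitOfCoprime,
    ZMod.cast_natCast (hT p hp)]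

lemma ev_pow {c : Fam} {e : ℕ} (he : c ^ e = 1) (T : Finset ℕ) (q : ℕ) : ev c T q ^ e = 1 := by
  unfold ev
  rw [← Finset.prod_pow]
  refine Finset.prod_eq_one fun p _ => ?_
  split_ifs with h
  · have h2 : (c p) ^ e = 1 := by
      have := congrFun he p
      simpa using this
    have h3 := DFunLike.congr_fun h2 (ZMod.unitOfCoprime q h)
    simpa using h3
  · exact one_pow e

lemma ev_mul (ψ c : Fam) {S T : Finset ℕ} (hST : Disjoint S T) (h1 : ∀ p ∈ S, c p = 1)
    (h2 : ∀ p ∈ T, ψ p = 1) (q : ℕ) : ev (ψ * c) (S ∪ T) q = ev ψ S q * ev c T q := by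
  classical
  unfold ev
  rw [Finset.prod_union hST]
  congr 1
  · refine Finset.prod_congr rfl fun p hp => ?_
    split_ifs with h
    · have : (ψ * c) p = ψ p := by
        show ψ p * c p = ψ p
        rw [h1 p hp]
        exact mul_one (ψ p)
      rw [this]
    · rfl
  · refine Finset.prod_congr rfl fun p hp => ?_
    split_ifs with h
    · have : (ψ * c) p = c p := by
        show ψ p * c p = c p
        rw [h2 p hp]
        exact one_mul (c p)
      rw [this]
    · rfl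

/-- the sum for the modulus `∏ S` in terms of the sum for the modulus `∏ T` -/
theorem ps_prod' (f : ℚ → ℂ) (hf : ∀ r, f (r + 1) = f r) (a : ℕ → ℂ) (c : Fam)
    (T : Finset ℕ) (R : Finset ℕ) : Disjoint R T → (∀ q ∈ R ∪ T, q.Prime) →
    (∀ l ∈ R, ∀ r : ℚ, a l * f r = f (l * r) + ∑ u ∈ range l, f ((r + u) / l)) →
    ∀ (M M' : ℕ) [NeZero M] [NeZero M'], M = dd (R ∪ T) → M' = dd T →
      psc f c T M = (∏ q ∈ R, (a q - (((ev c T q)⁻¹ : ℂˣ) : ℂ) - ((ev c T q : ℂˣ) : ℂ))) *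
        psc f c T M' := by
  classical
  induction R using Finset.induction_on with
  | empty =>
    intro _ _ _ M M' _ _ hM hM'
    rw [Finset.empty_union, ← hM'] at hM
    subst hM
    rw [Finset.prod_empty, one_mul]
  | insert q R hq ih =>
    intro hd hp hh M M' _ _ hM hM'
    have hd' : Disjoint R T := hd.mono_left (Finset.subset_insert q R)
    have hqT : q ∉ T := fun h => Finset.disjoint_left.1 hd (Finset.mem_insert_self q R) h
    have hqRT : q ∉ R ∪ T := by simp [hq, hqT]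
    have hp' : ∀ x ∈ R ∪ T, x.Prime := fun x hx => hp x (by
      rw [Finset.insert_union]; exact Finset.mem_insert_of_mem hx)
    have hqp : q.Prime := hp q (by simp)
    have hne : NeZero (dd (R ∪ T)) := ⟨dd_ne_zero hp'⟩
    rw [Finset.insert_union, dd_insert hqRT] at hM
    have hdv : dd (R ∪ T) ∣ M := ⟨q, by rw [hM, mul_comm]⟩
    have hco := dd_coprime hqp hp' hqRT
    have h1 := ps_step f hf (a q) q (dd (R ∪ T)) M hqp hco hM
      (hh q (Finset.mem_insert_self q R)) hdv (XX c T (dd (R ∪ T)))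
    rw [XX_comp c hdv (fun p hp => dvd_dd (Finset.mem_union_right R hp)),
      XX_ev c T _ q (fun p hp => dvd_dd (Finset.mem_union_right R hp)) hco] at h1
    have h2 := ih hd' hp' (fun l hl => hh l (Finset.mem_insert_of_mem hl))
      (dd (R ∪ T)) M' rfl hM'
    rw [Finset.prod_insert hq, mul_assoc, ← h2]
    exact h1

/-- conditions on the fixed character -/
structure TOk (ψ : Fam) (E : ℕ) (A : Set ℕ) : Prop where
  pow : ψ ^ E = 1
  fin : {q | ψ q ≠ 1}.Finite
  pr : ∀ q, ψ q ≠ 1 → q.Prime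
  dis : ∀ q ∈ A, ψ q = 1

lemma mul_powF {G : Type} [CommGroup G] {x y : G} {e : ℕ} (hx : x ^ e = 1) (hy : y ^ e = 1) :
    (x * y) ^ e = 1 := by rw [mul_pow, hx, hy, one_mul]

lemma pow_dvdF {G : Type} [CommGroup G] {x : G} {e E : ℕ} (h : e ∣ E) (hx : x ^ e = 1) :
    x ^ E = 1 := by
  obtain ⟨k, rfl⟩ := h
  rw [pow_mul, hx, one_pow]

lemma spT {ψ c : Fam} {E e : ℕ} {A : Set ℕ} (hψ : TOk ψ E A) (hc : {q | c q ≠ 1}.Finite)
    (hcA : ∀ q, c q ≠ 1 → q ∈ A) :
    {q | (ψ * c) q ≠ 1}.Finite ∧ sp (ψ * c) = sp ψ ∪ sp c ∧ Disjoint (sp ψ) (sp c) ∧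
      (∀ p ∈ sp ψ, c p = 1) ∧ (∀ p ∈ sp c, ψ p = 1) := by
  classical
  have h1 : ∀ p ∈ sp ψ, c p = 1 := by
    intro p hp
    by_contra h
    exact (mem_sp hψ.fin p).1 hp (hψ.dis p (hcA p h))
  have h2 : ∀ p ∈ sp c, ψ p = 1 := fun p hp => hψ.dis p (hcA p ((mem_sp hc p).1 hp))
  have h3 : ∀ q, (ψ * c) q ≠ 1 ↔ ψ q ≠ 1 ∨ c q ≠ 1 := by
    intro q
    have e0 : (ψ * c) q = ψ q * c q := rfl
    by_cases h4 : ψ q = 1
    · have e1 : ψ q * c q = c q := by
        rw [h4]
        exact one_mul (c q)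
      rw [e0, e1]
      constructor
      · exact Or.inr
      · rintro (h | h)
        · exact absurd h4 h
        · exact h
    · have e1 : c q = 1 := h1 q ((mem_sp hψ.fin q).2 h4)
      have e2 : ψ q * c q = ψ q := by
        rw [e1]
        exact mul_one (ψ q)
      rw [e0, e2]
      constructor
      · exact Or.inl
      · intro _
        exact h4
  have h4 : {q | (ψ * c) q ≠ 1}.Finite := by
    refine (hψ.fin.union hc).subset fun q hq => ?_
    exact (h3 q).1 hq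
  refine ⟨h4, ?_, ?_, h1, h2⟩
  · ext q
    rw [mem_sp h4, Finset.mem_union, mem_sp hψ.fin, mem_sp hc]
    exact h3 q
  · rw [Finset.disjoint_left]
    intro p hp hp2
    exact (mem_sp hc p).1 hp2 (h1 p hp)

/-- the sum for a fixed modulus is a combination of characters -/
lemma psc_combT {R : Subring ℂ} {e E : ℕ} (hR : ∀ z : ℂ, z ^ E = 1 → z ∈ R) (f : ℚ → ℂ)
    {ψ : Fam} (hψ : ψ ^ E = 1) {H : Subgroup Fam} (hH : ∀ c ∈ H, c ^ e = 1)
    (S : Finset ℕ) (M : ℕ) [NeZero M] :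
    (fun c : H => psc f (ψ * (c : Fam)) S M) ∈ Comb H e (Submodule.span R (Set.range f)) := by
  classical
  have h1 : (fun c : H => psc f (ψ * (c : Fam)) S M) =
      ∑ u : (ZMod M)ˣ, fun c : H => (((XX ψ S M u : ℂˣ) : ℂ) * FF f M u) *
        ((XX (c : Fam) S M u : ℂˣ) : ℂ) := by
    funext c
    rw [Finset.sum_apply]
    unfold psc ps
    refine Finset.sum_congr rfl fun u _ => ?_
    rw [XX_mul, MonoidHom.mul_apply, Units.val_mul]
    ring
  rw [h1]
  refine AddSubgroup.sum_mem _ fun u _ => ?_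
  let E' : H →* ℂ :=
    { toFun := fun c => ((XX (c : Fam) S M u : ℂˣ) : ℂ)
      map_one' := by
        rw [XX_apply]
        simp [loc_one]
      map_mul' := fun c c' => by
        rw [Subgroup.coe_mul, XX_mul]
        simp }
  have hmem : ((XX ψ S M u : ℂˣ) : ℂ) * FF f M u ∈ Submodule.span R (Set.range f) := by
    have h2 : ((XX ψ S M u : ℂˣ) : ℂ) ^ E = 1 := by
      have := congrArg Units.val (XX_pow hψ S M u)
      rw [Units.val_pow_eq_pow_val, Units.val_one] at this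
      exact this
    have h3 := (Submodule.span R (Set.range f)).smul_mem (⟨_, hR _ h2⟩ : R)
      (Submodule.subset_span (Set.mem_range_self _) : FF f M u ∈ Submodule.span R (Set.range f))
    exact h3
  refine Comb.gen (Γ := H) (w := ((XX ψ S M u : ℂˣ) : ℂ) * FF f M u) hmem E' fun c => ?_
  have h2 := congrArg Units.val (XX_pow (hH c c.2) S M u)
  rw [Units.val_pow_eq_pow_val, Units.val_one] at h2
  exact h2

/-- **goodness of the sums** -/
theorem goodT {N : ℕ} {f : ℚ → ℂ} {a : ℕ → ℂ} (hms : MS N f a) {R : Subring ℂ} {e E : ℕ}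
    (heE : e ∣ E) (hR : ∀ z : ℂ, z ^ E = 1 → z ∈ R) (al : ℕ → R) {P : Ideal R} (hP : P.IsPrime)
    (hP1 : ∀ z : R, (z : ℂ) ^ e = 1 → 1 - z ∈ P) {ψ : Fam} {H : Subgroup Fam} {A : Set ℕ}
    (hψ : TOk ψ E A) (hH : Ok H e A)
    (hA : ∀ q ∈ A, q.Prime ∧ ¬ q ∣ N ∧ (al q : ℂ) = a q ∧
      ∀ z z' : R, (z : ℂ) = ((ev ψ (sp ψ) q : ℂˣ) : ℂ) →
        (z' : ℂ) = (((ev ψ (sp ψ) q)⁻¹ : ℂˣ) : ℂ) → al q - z' - z ∉ P) :
    Good e P (Submodule.span R (Set.range f)) (fun c : H => bt f (ψ * (c : Fam))) := by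
  classical
  have hsp : ∀ c : H, ∀ q ∈ sp (c : Fam), q ∈ A := fun c q hq =>
    hH.adm c c.2 q ((mem_sp (hH.fin c c.2) q).1 hq)
  have hspT : ∀ c : H, _ := fun c => spT (E := E) (e := e) (c := (c : Fam)) hψ (hH.fin c c.2)
    (fun q hq => hH.adm c c.2 q hq)
  have hnz : ∀ S : Finset ℕ, (∀ q ∈ S, q ∈ A) → dd (sp ψ ∪ S) ≠ 0 := fun S hS =>
    dd_ne_zero fun q hq => by
      rcases Finset.mem_union.1 hq with h | h
      · exact hψ.pr q ((mem_sp hψ.fin q).1 h)
      · exact (hA q (hS q h)).1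
  have hpow : ∀ c : H, (ψ * (c : Fam)) ^ E = 1 := fun c =>
    mul_powF (G := Fam) hψ.pow (pow_dvdF (G := Fam) heE (hH.pow c c.2))
  -- the values of `ψ`
  have hev : ∀ q, ((ev ψ (sp ψ) q : ℂˣ) : ℂ) ^ E = 1 := fun q => by
    have := congrArg Units.val (ev_pow hψ.pow (sp ψ) q)
    simpa using this
  have hev' : ∀ q, (((ev ψ (sp ψ) q)⁻¹ : ℂˣ) : ℂ) ^ E = 1 := fun q => by
    have := congrArg Units.val (congrArg (fun z => z⁻¹) (ev_pow hψ.pow (sp ψ) q))
    simpa using this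
  set zr : ℕ → R := fun q => ⟨_, hR _ (hev q)⟩ with hzr
  set zr' : ℕ → R := fun q => ⟨_, hR _ (hev' q)⟩ with hzr'
  have hR' : ∀ z : ℂ, z ^ e = 1 → z ∈ R := fun z hz => hR z (by
    obtain ⟨k, rfl⟩ := heE
    rw [pow_mul, hz, one_pow])
  refine ⟨fun c => ?_, ?_⟩
  · have hne : NeZero (dd (sp (ψ * (c : Fam)))) := ⟨by
      rw [(hspT c).2.1]
      exact hnz _ (hsp c)⟩
    rw [bt_eq f _ _ rfl]
    exact psc_mem hR f (hpow c) _ _
  · have hprod : ∀ S : Finset ℕ, (∀ q ∈ S, q ∈ A) → ∏ q ∈ S, (al q - zr' q - zr q) ∉ P := by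
      intro S hS h
      obtain ⟨q, hq, h1⟩ := (hP.prod_mem_iff).1 h
      exact (hA q (hS q hq)).2.2.2 (zr q) (zr' q) rfl rfl h1
    refine ⟨fun c => ∏ q ∈ sp (c : Fam), (al q - zr' q - zr q), fun c => hprod _ (hsp c),
      fun Q => ?_⟩
    set S : Finset ℕ := Q.biUnion (fun c => sp (c : Fam)) with hS
    have hSA : ∀ q ∈ S, q ∈ A := by
      intro q hq
      obtain ⟨c, _, h1⟩ := Finset.mem_biUnion.1 hq
      exact hsp c q h1
    have : NeZero (dd (sp ψ ∪ S)) := ⟨hnz S hSA⟩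
    refine ⟨_, psc_combT (R := R) hR f hψ.pow hH.pow (sp ψ ∪ S) (dd (sp ψ ∪ S)),
      ∏ q ∈ S, (al q - zr' q - zr q), hprod S hSA, ?_⟩
    intro c hc
    obtain ⟨hf1, hf2, hf3, hf4, hf5⟩ := hspT c
    have hsub : sp (c : Fam) ⊆ S := Finset.subset_biUnion_of_mem (fun c : H => sp (c : Fam)) hc
    have hne : NeZero (dd (sp (ψ * (c : Fam)))) := ⟨by
      rw [hf2]
      exact hnz _ (hsp c)⟩
    have hdisj : Disjoint (S \ sp (c : Fam)) (sp (ψ * (c : Fam))) := by
      rw [hf2, Finset.disjoint_left]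
      intro q hq hq2
      rcases Finset.mem_union.1 hq2 with h | h
      · exact (mem_sp hψ.fin q).1 h (hψ.dis q (hSA q (Finset.mem_sdiff.1 hq).1))
      · exact (Finset.mem_sdiff.1 hq).2 h
    have hunion : S \ sp (c : Fam) ∪ sp (ψ * (c : Fam)) = sp ψ ∪ S := by
      rw [hf2]
      ext q
      simp only [Finset.mem_union, Finset.mem_sdiff]
      constructor
      · rintro (h | h | h)
        · exact Or.inr h.1
        · exact Or.inl h
        · exact Or.inr (hsub h)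
      · rintro (h | h)
        · exact Or.inr (Or.inl h)
        · by_cases h2 : q ∈ sp (c : Fam)
          · exact Or.inr (Or.inr h2)
          · exact Or.inl ⟨h, h2⟩
    have hXX : XX (ψ * (c : Fam)) (sp ψ ∪ S) (dd (sp ψ ∪ S)) =
        XX (ψ * (c : Fam)) (sp (ψ * (c : Fam))) (dd (sp ψ ∪ S)) := by
      refine XX_subset _ (by rw [← hunion]; exact Finset.subset_union_right) (fun q _ hq => ?_) _
      by_contra h1
      exact hq ((mem_sp hf1 q).2 h1)
    have h1 := ps_prod' f hms.per a (ψ * (c : Fam)) (sp (ψ * (c : Fam)))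
      (S \ sp (c : Fam)) hdisj (fun q hq => by
        rw [hunion] at hq
        rcases Finset.mem_union.1 hq with h | h
        · exact hψ.pr q ((mem_sp hψ.fin q).1 h)
        · exact (hA q (hSA q h)).1) (fun l hl r =>
        hms.hecke l (hA l (hSA l (Finset.sdiff_subset hl))).1
          (hA l (hSA l (Finset.sdiff_subset hl))).2.1 r) (dd (sp ψ ∪ S)) (dd (sp (ψ * (c : Fam))))
      (by rw [hunion]) rfl
    -- the values of `c`
    have hcv : ∀ q, ((ev (c : Fam) (sp (c : Fam)) q : ℂˣ) : ℂ) ^ e = 1 := fun q => by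
      have := congrArg Units.val (ev_pow (hH.pow c c.2) (sp (c : Fam)) q)
      simpa using this
    have hcv' : ∀ q, (((ev (c : Fam) (sp (c : Fam)) q)⁻¹ : ℂˣ) : ℂ) ^ e = 1 := fun q => by
      have := congrArg Units.val (congrArg (fun z => z⁻¹) (ev_pow (hH.pow c c.2)
        (sp (c : Fam)) q))
      simpa using this
    have hevm : ∀ q, ev (ψ * (c : Fam)) (sp (ψ * (c : Fam))) q =
        ev ψ (sp ψ) q * ev (c : Fam) (sp (c : Fam)) q := fun q => by
      rw [hf2]
      exact ev_mul ψ c hf3 hf4 hf5 q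
    refine ⟨∏ q ∈ S \ sp (c : Fam), (al q - zr' q * ⟨_, hR' _ (hcv' q)⟩ -
      zr q * ⟨_, hR' _ (hcv q)⟩), ?_, ?_⟩
    · rw [← Ideal.Quotient.eq_zero_iff_mem, map_sub, map_mul, sub_eq_zero, map_prod, map_prod,
        map_prod]
      have h2 : ∏ q ∈ S \ sp (c : Fam), Ideal.Quotient.mk P (al q - zr' q * ⟨_, hR' _ (hcv' q)⟩ -
            zr q * ⟨_, hR' _ (hcv q)⟩) =
          ∏ q ∈ S \ sp (c : Fam), Ideal.Quotient.mk P (al q - zr' q - zr q) := by
        refine Finset.prod_congr rfl fun q _ => ?_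
        rw [← sub_eq_zero, ← map_sub, Ideal.Quotient.eq_zero_iff_mem]
        have h3 : al q - zr' q * ⟨_, hR' _ (hcv' q)⟩ - zr q * ⟨_, hR' _ (hcv q)⟩ -
            (al q - zr' q - zr q) =
            zr' q * (1 - ⟨_, hR' _ (hcv' q)⟩) + zr q * (1 - ⟨_, hR' _ (hcv q)⟩ : R) := by ring
        rw [h3]
        exact P.add_mem (P.mul_mem_left _ (hP1 _ (hcv' q))) (P.mul_mem_left _ (hP1 _ (hcv q)))
      rw [h2, Finset.prod_sdiff hsub]
    · show psc f (ψ * (c : Fam)) (sp ψ ∪ S) (dd (sp ψ ∪ S)) = _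
      have h4 : psc f (ψ * (c : Fam)) (sp ψ ∪ S) (dd (sp ψ ∪ S)) =
          psc f (ψ * (c : Fam)) (sp (ψ * (c : Fam))) (dd (sp ψ ∪ S)) := by
        unfold psc
        rw [hXX]
      rw [h4, h1, bt_eq f _ _ rfl, Subring.smul_def, smul_eq_mul]
      congr 1
      rw [← Subring.subtype_apply, map_prod]
      refine Finset.prod_congr rfl fun q hq => ?_
      rw [map_sub, map_sub, map_mul, map_mul]
      simp only [Subring.subtype_apply]
      rw [(hA q (hSA q (Finset.sdiff_subset hq))).2.2.1, hevm q, mul_inv, Units.val_mul,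
        Units.val_mul]

end Pool.Agent.Q6.NW
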