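import Pool.Agent.Q6.NW.Tw

/-!
Corrections for the characters `ψ_i c`: tuples, infinite subgroups, and products of few elements.
-/

set_option autoImplicit false

namespace Pool.Agent.Y18.LP

open Finset

section
variable {Γ : Type} [CommGroup Γ] {R : Subring ℂ} {e : ℕ} {W : Submodule R ℂ}

/-- a nonempty part of any `V + 1` elements has a product with a nonzero value -/
theorem anyprod (hR : ∀ z : ℂ, z ^ e = 1 → z ∈ R) {P : Ideal R} (hP : P.IsMaximal)
    (hP1 : ∀ z : R, (z : ℂ) ^ e = 1 → 1 - z ∈ P) {β : Γ → ℂ} (hβ : Good e P W β) {V : ℕ}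
    {x0 : Γ} (hV : β x0 ∉ P ^ (V + 1) • W) (L : List Γ) (hL : V < L.length) :
    ∃ S : List Γ, S.Sublist L ∧ S ≠ [] ∧ β (x0 * S.prod) ≠ 0 := by
  classical
  by_contra hcon
  push Not at hcon
  obtain ⟨d, hd, hQ⟩ := hβ.ex
  obtain ⟨A, hA, c, hc, h1⟩ := hQ ((PL L).map (fun k => x0 * k)).toFinset
  -- the products of the nonempty sublists
  have hPL : ∀ (L : List Γ), ∀ k ∈ PL L, ∃ S : List Γ, S.Sublist L ∧ S.prod = k := by
    intro L
    induction L with
    | nil =>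
      intro k hk
      simp only [PL, List.mem_singleton] at hk
      exact ⟨[], List.Sublist.refl _, by rw [hk]; simp⟩
    | cons g L ih =>
      intro k hk
      simp only [PL, List.mem_append, List.mem_map] at hk
      rcases hk with hk | ⟨x, hx, rfl⟩
      · obtain ⟨S, hS1, hS2⟩ := ih k hk
        exact ⟨S, hS1.cons g, hS2⟩
      · obtain ⟨S, hS1, hS2⟩ := ih x hx
        exact ⟨g :: S, hS1.cons_cons g, by rw [List.prod_cons, hS2]⟩
  have hmemPL : ∀ (L S : List Γ), S.Sublist L → S.prod ∈ PL L := by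
    intro L
    induction L with
    | nil =>
      intro S hS
      rw [List.sublist_nil.1 hS]
      simp [PL]
    | cons g L ih =>
      intro S hS
      simp only [PL, List.mem_append, List.mem_map]
      cases hS with
      | cons _ h => exact Or.inl (ih _ h)
      | cons_cons _ h => exact Or.inr ⟨_, ih _ h, by rw [List.prod_cons]⟩
  -- `A` vanishes on the products of the nonempty sublists
  have hA0 : ∀ S : List Γ, S.Sublist L → S ≠ [] → A (x0 * S.prod) = 0 := by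
    intro S hS hS0
    obtain ⟨o, -, ho⟩ := h1 (x0 * S.prod) (by
      rw [List.mem_toFinset, List.mem_map]
      exact ⟨_, hmemPL L S hS, rfl⟩)
    rw [ho, hcon S hS hS0, smul_zero]
  have hDD : ∀ (L : List Γ) (x : Γ), (∀ S : List Γ, S.Sublist L → S ≠ [] → A (x * S.prod) = 0) →
      DD L A x = A x := by
    intro L
    induction L with
    | nil => intro x _; rfl
    | cons g L ih =>
      intro x h
      have h2 : DD (g :: L) A x = DD L A x - DD L A (g * x) := rfl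
      rw [h2, ih x fun S hS hS0 => h S (hS.cons g) hS0]
      have h3 : DD L A (g * x) = 0 := by
        by_contra h4
        obtain ⟨k, hk, h5⟩ := DD_exists (V := (⊥ : Submodule R ℂ)) L (g * x) (by
          rwa [Submodule.mem_bot])
        rw [Submodule.mem_bot] at h5
        obtain ⟨S, hS1, hS2⟩ := hPL L k hk
        apply h5
        have h6 := h (g :: S) (hS1.cons_cons g) (by simp)
        rw [List.prod_cons, hS2] at h6
        rw [show g * x * k = x * (g * k) by rw [← mul_assoc, mul_comm x g]]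
        exact h6
      rw [h3, sub_zero]
  have h2 : DD L A x0 = A x0 := hDD L x0 hA0
  have h3 : DD L A x0 ∈ P ^ (V + 1) • W := by
    have h5 := DD_mem hR P hP1 hA L
    have h6 := Comb.val hR h5 x0
    exact (Submodule.smul_mono_left (Ideal.pow_le_pow_right hL)) h6
  obtain ⟨o, ho1, ho2⟩ := h1 x0 (by
    rw [List.mem_toFinset, List.mem_map]
    exact ⟨1, by simpa using hmemPL L [] (List.nil_sublist L), mul_one x0⟩)
  have hprime := hP.isPrime
  have hoP : o ∉ P := by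
    intro h
    apply hc
    have h4 : c = o * d x0 - (o * d x0 - c) := by ring
    rw [h4]
    exact P.sub_mem (P.mul_mem_right _ h) ho1
  rw [h2, ho2] at h3
  -- `o` is a unit modulo `P ^ (V + 1)`
  have hunit : ∀ j : ℕ, ∃ u : R, 1 - u * o ∈ P ^ j := by
    intro j
    obtain ⟨u, v, hv, h4⟩ := hP.exists_inv hoP
    have h5 : 1 - u * o ∈ P := by
      have : 1 - u * o = v := by linear_combination -h4
      rw [this]
      exact hv
    have h6 : (1 - u * o) ^ j ∈ P ^ j := Ideal.pow_mem_pow h5 j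
    obtain ⟨w, hw⟩ : o ∣ 1 - (1 - u * o) ^ j := by
      have h7 : (1 - (1 - u * o)) ∣ 1 ^ j - (1 - u * o) ^ j := sub_dvd_pow_sub_pow _ _ j
      rw [one_pow] at h7
      have h8 : o ∣ 1 - (1 - u * o) := ⟨u, by ring⟩
      exact h8.trans h7
    refine ⟨w, ?_⟩
    have h7 : 1 - w * o = (1 - u * o) ^ j := by linear_combination hw
    rw [h7]
    exact h6
  obtain ⟨u, hu⟩ := hunit (V + 1)
  apply hV
  have h4 : β x0 = u • (o • β x0) + (1 - u * o) • β x0 := by
    rw [sub_smul, mul_smul, one_smul]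
    ring
  rw [h4]
  exact Submodule.add_mem _ (Submodule.smul_mem _ _ h3)
    (Submodule.smul_mem_smul hu (hβ.mem x0))

end

end Pool.Agent.Y18.LP

namespace Pool.Agent.Q6.NW

open Finset Pool.Agent.Y18.BSD Pool.Agent.Y18.LP

section main
variable {ι : Type} [Fintype ι] {N : ι → ℕ} {f : ι → ℚ → ℂ} {a : ι → ℕ → ℂ} {ψ : ι → Fam}

/-- admissible primes -/
def AdT (N : ι → ℕ) (a : ι → ℕ → ℂ) (ψ : ι → Fam) (lam : Ideal (integralClosure ℤ ℂ)) : Set ℕ :=
  {q | q.Prime ∧ ∀ i, ¬ q ∣ N i ∧ ψ i q = 1 ∧ ∀ x ∈ lam, (x : ℂ) ≠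
    a i q - (((ev (ψ i) (sp (ψ i)) q)⁻¹ : ℂˣ) : ℂ) - ((ev (ψ i) (sp (ψ i)) q : ℂˣ) : ℂ)}

/-- the ring and the ideal -/
theorem setupT (hms : ∀ i, MS (N i) (f i) (a i)) (h0 : ∀ i, ∃ r, f i r ≠ 0) {l : ℕ}
    (hl : l.Prime) (n : ℕ) {E : ℕ} (hE : 0 < E) (lam : Ideal (integralClosure ℤ ℂ))
    (hlam : lam.IsPrime) (hmem : (l : integralClosure ℤ ℂ) ∈ lam) :
    ∃ (R : Subring ℂ) (_ : IsNoetherianRing R) (P : Ideal R) (al : ι → ℕ → R), P.IsMaximal ∧
      (∀ z : ℂ, z ^ E = 1 → z ∈ R) ∧ (∀ z : R, (z : ℂ) ^ (l ^ n) = 1 → 1 - z ∈ P) ∧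
      ∀ i, ∀ q ∈ AdT N a ψ lam, q.Prime ∧ ¬ q ∣ N i ∧ (al i q : ℂ) = a i q ∧
        ∀ z z' : R, (z : ℂ) = ((ev (ψ i) (sp (ψ i)) q : ℂˣ) : ℂ) →
        (z' : ℂ) = (((ev (ψ i) (sp (ψ i)) q)⁻¹ : ℂˣ) : ℂ) → al i q - z' - z ∉ P := by
  classical
  choose r0 hr0 using h0
  let W1 : Submodule ℤ ℂ := (∏ i, Submodule.span ℤ (Set.range (f i))) * Zr E
  have hfg : W1.FG := (fg_prod univ _ fun i _ => (hms i).fin).mul (Zr_fg hE)
  have hfin : Module.Finite ℤ W1 := Module.Finite.iff_fg.2 hfg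
  have hw : (∏ i, f i (r0 i)) * 1 ∈ W1 := Submodule.mul_mem_mul
    (prod_mem' univ _ _ fun i _ => Submodule.subset_span ⟨r0 i, rfl⟩) (Zr_one _)
  have hw0 : (∏ i, f i (r0 i)) * 1 ≠ 0 := by
    rw [mul_one]
    exact Finset.prod_ne_zero_iff.2 fun i _ => hr0 i
  let R : Subring ℂ := Mult W1
  have hRfin : Module.Finite ℤ R := finite_Mult hw hw0
  have hnoeth : IsNoetherianRing R := IsNoetherianRing.of_finite ℤ R
  have hRroot : ∀ z : ℂ, z ^ E = 1 → z ∈ R := fun z hz => mul_Mult' (Zr_Mult hz)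
  have haR : ∀ i, ∀ q : ℕ, q.Prime → ¬ q ∣ N i → a i q ∈ R := by
    intro i q hq hqN
    refine mul_Mult (prod_Mult univ _ (Finset.mem_univ i) ?_)
    intro w hw
    induction hw using Submodule.span_induction with
    | mem x hx =>
      obtain ⟨r, rfl⟩ := hx
      rw [(hms i).hecke q hq hqN r]
      exact Submodule.add_mem _ (Submodule.subset_span ⟨_, rfl⟩)
        (Submodule.sum_mem _ fun u _ => Submodule.subset_span ⟨_, rfl⟩)
    | zero => rw [mul_zero]; exact Submodule.zero_mem _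
    | add x y _ _ h1 h2 => rw [mul_add]; exact Submodule.add_mem _ h1 h2
    | smul c x _ h => rw [mul_smul_comm]; exact Submodule.smul_mem _ _ h
  let P : Ideal R := lam.comap (incl hRfin)
  refine ⟨R, hnoeth, P, fun i q => if h : a i q ∈ R then ⟨a i q, h⟩ else 0,
    comap_maximal lam hRfin hlam hl hmem, hRroot, ?_, ?_⟩
  · intro z hz
    rw [Ideal.mem_comap, map_sub, map_one]
    refine one_sub_mem lam hlam hl hmem (n := n) _ ?_
    apply Subtype.ext
    have h1 : ((incl hRfin z ^ (l ^ n) : integralClosure ℤ ℂ) : ℂ) =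
        ((incl hRfin z : integralClosure ℤ ℂ) : ℂ) ^ (l ^ n) := rfl
    rw [h1, incl_coe, hz]
    rfl
  · rintro i q ⟨hq, hqA⟩
    obtain ⟨h1, -, h2⟩ := hqA i
    have h3 := haR i q hq h1
    refine ⟨hq, h1, ?_, ?_⟩
    · simp only [dif_pos h3]
    · intro z z' hz hz'
      simp only [dif_pos h3]
      intro h4
      rw [Ideal.mem_comap] at h4
      refine h2 _ h4 ?_
      rw [incl_coe, ← hz, ← hz']
      rfl

lemma bt_ne {g : ℚ → ℂ} {c : Fam} (h : bt g c ≠ 0) : ∃ r, g r ≠ 0 := by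
  by_contra hcon
  push Not at hcon
  apply h
  unfold bt
  split_ifs with h1
  · unfold psc ps
    refine Finset.sum_eq_zero fun u _ => ?_
    have h2 : ∀ (M : ℕ) (u : (ZMod M)ˣ), FF g M u = 0 := fun M u => hcon _
    rw [h2, mul_zero]
  · rfl

lemma bt_memT {R : Subring ℂ} {E : ℕ} (hR : ∀ z : ℂ, z ^ E = 1 → z ∈ R) (g : ℚ → ℂ) {c : Fam}
    (hc : c ^ E = 1) : bt g c ∈ Submodule.span R (Set.range g) := by
  by_cases h : dd (sp c) = 0
  · unfold bt
    rw [dif_neg (not_not.2 h)]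
    exact Submodule.zero_mem _
  · have hne : NeZero (dd (sp c)) := ⟨h⟩
    rw [bt_eq g c (dd (sp c)) rfl]
    exact psc_mem hR g hc _ _

/-- **a small set of corrections for tuples** -/
theorem tuplesT (hms : ∀ i, MS (N i) (f i) (a i)) {l : ℕ} (hl : l.Prime)
    (n : ℕ) {E : ℕ} (hE : 0 < E) (heE : l ^ n ∣ E) (lam : Ideal (integralClosure ℤ ℂ))
    (hlam : lam.IsPrime) (hmem : (l : integralClosure ℤ ℂ) ∈ lam)
    (hψ : ∀ i, TOk (ψ i) E (AdT N a ψ lam)) (h0 : ∀ i, bt (f i) (ψ i) ≠ 0) (r : ℕ) :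
    ∃ V : ℕ, ∀ H : Subgroup Fam, Ok H (l ^ n) (AdT N a ψ lam) →
      ∃ K : Finset (Fin r → Fam), K.card ≤ 2 ^ V ∧ (∀ k ∈ K, ∀ j, k j ∈ H) ∧
        ∀ c : Fin r → Fam, (∀ j, c j ∈ H) → ∃ k ∈ K, ∀ J : Fin r → ℕ, ∀ i,
          bt (f i) (ψ i * ∏ j, (c j * k j) ^ J j) ≠ 0 := by
  classical
  have he : 0 < l ^ n := pow_pos hl.pos n
  obtain ⟨R, hR0, P, al, hP, hR, hP1, hA⟩ := setupT (ψ := ψ) hms (fun i => bt_ne (h0 i)) hl n hE
    lam hlam hmem
  have hR' : ∀ z : ℂ, z ^ (l ^ n) = 1 → z ∈ R := fun z hz => hR z (by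
    obtain ⟨k, hk⟩ := heE
    rw [hk, pow_mul, hz, one_pow])
  have hx : ∏ x : ι × (Fin r → Fin (l ^ n)), bt (f x.1) (ψ x.1) ∈
      ∏ x : ι × (Fin r → Fin (l ^ n)), Submodule.span R (Set.range (f x.1)) :=
    prod_mem' univ (fun x : ι × (Fin r → Fin (l ^ n)) => Submodule.span R (Set.range (f x.1))) _
      fun i _ => bt_memT hR _ (hψ i.1).pow
  obtain ⟨V, hV⟩ := krull hP.ne_top (fg_prod univ
    (fun x : ι × (Fin r → Fin (l ^ n)) => Submodule.span R (Set.range (f x.1)))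
    fun i _ => span_fg (hms i.1).fin) hx (Finset.prod_ne_zero_iff.2 fun i _ => h0 i.1)
  refine ⟨V, fun H hH => ?_⟩
  have hg : ∀ i, Good (l ^ n) P (Submodule.span R (Set.range (f i)))
      (fun c : H => bt (f i) (ψ i * (c : Fam))) := fun i =>
    goodT (hms i) heE hR (al i) hP.isPrime hP1 (hψ i) hH (hA i)
  exact tup_abs (G := Fam) hR' he hP hP1 r H (fun c hc => hH.pow c hc)
    (fun i => Submodule.span R (Set.range (f i))) (fun i c => bt (f i) (ψ i * c)) hg (by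
      have e1 : ∏ x : ι × (Fin r → Fin (l ^ n)), bt (f x.1) (ψ x.1 * 1) =
          ∏ x : ι × (Fin r → Fin (l ^ n)), bt (f x.1) (ψ x.1) :=
        Finset.prod_congr rfl fun x _ => congrArg (bt (f x.1)) (mul_one (ψ x.1))
      rw [e1]
      exact hV)

/-- **products of few elements** -/
theorem anyT (hms : ∀ i, MS (N i) (f i) (a i)) {l : ℕ} (hl : l.Prime)
    (n : ℕ) {E : ℕ} (hE : 0 < E) (heE : l ^ n ∣ E) (lam : Ideal (integralClosure ℤ ℂ))
    (hlam : lam.IsPrime) (hmem : (l : integralClosure ℤ ℂ) ∈ lam)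
    (hψ : ∀ i, TOk (ψ i) E (AdT N a ψ lam)) (h0 : ∀ i, bt (f i) (ψ i) ≠ 0) :
    ∃ V : ℕ, ∀ H : Subgroup Fam, Ok H (l ^ n) (AdT N a ψ lam) →
      ∀ L : List Fam, V < L.length → (∀ c ∈ L, c ∈ H) →
        ∃ S : List Fam, S.Sublist L ∧ S ≠ [] ∧ ∀ (j : ℕ), ∀ i,
          bt (f i) (ψ i * S.prod ^ j) ≠ 0 := by
  classical
  have he : 0 < l ^ n := pow_pos hl.pos n
  obtain ⟨R, hR0, P, al, hP, hR, hP1, hA⟩ := setupT (ψ := ψ) hms (fun i => bt_ne (h0 i)) hl n hE
    lam hlam hmem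
  have hR' : ∀ z : ℂ, z ^ (l ^ n) = 1 → z ∈ R := fun z hz => hR z (by
    obtain ⟨k, hk⟩ := heE
    rw [hk, pow_mul, hz, one_pow])
  set s : Finset (ι × ℕ) := univ ×ˢ range (l ^ n) with hs
  have hx : ∏ x ∈ s, bt (f x.1) (ψ x.1) ∈ ∏ x ∈ s, Submodule.span R (Set.range (f x.1)) :=
    prod_mem' s (fun x : ι × ℕ => Submodule.span R (Set.range (f x.1))) _
      fun i _ => bt_memT hR _ (hψ i.1).pow
  obtain ⟨V, hV⟩ := krull hP.ne_top (fg_prod s
    (fun x : ι × ℕ => Submodule.span R (Set.range (f x.1)))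
    fun i _ => span_fg (hms i.1).fin) hx (Finset.prod_ne_zero_iff.2 fun i _ => h0 i.1)
  refine ⟨V, fun H hH L hL hLH => ?_⟩
  have hg := Good.prod (Γ := H) (e := l ^ n) hP.isPrime s
    (fun x => Submodule.span R (Set.range (f x.1)))
    (fun x (c : H) => bt (f x.1) (ψ x.1 * ((1 * c ^ x.2 : H) : Fam)))
    (fun x _ => (goodT (hms x.1) heE hR (al x.1) hP.isPrime hP1 (hψ x.1) hH (hA x.1)).comp hR'
      1 x.2)
  have hLlen : V < (L.attach.map fun c => (⟨c.1, hLH c.1 c.2⟩ : H)).length := by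
    rwa [List.length_map, List.length_attach]
  have hany := anyprod (Γ := H) hR' hP hP1 hg (V := V) (x0 := 1) (by
      have e1 : ∏ x ∈ s, bt (f x.1) (ψ x.1 * ((1 * 1 ^ x.2 : H) : Fam)) =
          ∏ x ∈ s, bt (f x.1) (ψ x.1) := by
        refine Finset.prod_congr rfl fun x _ => ?_
        have e2 : (1 * 1 ^ x.2 : H) = 1 := by rw [one_pow, one_mul]
        rw [e2]
        exact congrArg (bt (f x.1)) (mul_one (ψ x.1))
      rw [e1]
      exact hV) (L.attach.map fun c => (⟨c.1, hLH c.1 c.2⟩ : H)) hLlen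
  obtain ⟨S, hS1, hS2, hS3⟩ := hany
  refine ⟨S.map (fun c : H => (c : Fam)), ?_, ?_, fun j i => ?_⟩
  · have h1 := hS1.map (fun c : H => (c : Fam))
    rw [List.map_map] at h1
    have h2 : (L.attach.map ((fun c : H => (c : Fam)) ∘ fun c => (⟨c.1, hLH c.1 c.2⟩ : H))) = L := by
      have : ((fun c : H => (c : Fam)) ∘ fun c : {x // x ∈ L} => (⟨c.1, hLH c.1 c.2⟩ : H)) =
          Subtype.val := rfl
      rw [this, List.attach_map_subtype_val]
    rwa [h2] at h1
  · intro h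
    exact hS2 (List.map_eq_nil_iff.1 h)
  · have h1 := Finset.prod_ne_zero_iff.1 hS3 (i, j % l ^ n) (by
      rw [hs, Finset.mem_product]
      exact ⟨Finset.mem_univ _, Finset.mem_range.2 (Nat.mod_lt _ he)⟩)
    have h2 : ((S.map (fun c : H => (c : Fam))).prod : Fam) = ((S.prod : H) : Fam) := by
      have := map_list_prod (H.subtype) S
      exact this.symm
    have h3 : (((S.prod : H) : Fam)) ^ j = ((S.prod : H) : Fam) ^ (j % l ^ n) :=
      pow_mod' (G := Fam) (hH.pow _ (S.prod).2) j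
    have h4 : ψ i * (S.map (fun c : H => (c : Fam))).prod ^ j =
        ψ i * ((1 * (1 * S.prod) ^ (j % l ^ n) : H) : Fam) := by
      rw [h2, h3, one_mul, one_mul]
      rfl
    intro h5
    exact h1 (by
      show bt (f i) (ψ i * ((1 * (1 * S.prod) ^ (j % l ^ n) : H) : Fam)) = 0
      rw [← h4]
      exact h5)

end main

end Pool.Agent.Q6.NW
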