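import Pool.Agent.Q6.NW.TwN

/-!
Newforms over abelian extensions of a fixed abelian field.
-/

set_option autoImplicit false

open NumberField IsDedekindDomain UpperHalfPlane MatrixGroups CongruenceSubgroup

namespace Pool.Agent.Q6.NW

open Pool.Agent.Y18.BSD Pool.Agent.Y18.LP

/-- the `L`-function over a field contained in the field of the periods -/
theorem core_tw {N : ℕ} [NeZero N] {f : CuspForm (Gamma0 N : Subgroup (GL (Fin 2) ℝ)) 2}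
    (hf : IsNf N f) (H0 : Subgroup Fam) (hfin : ∀ c ∈ H0, {q | c q ≠ 1}.Finite)
    (hp : ∀ c ∈ H0, ∀ q, c q ≠ 1 → q.Prime ∧ ¬ q ∣ N) (hH : ∀ c ∈ H0, TwNZ f c)
    (F : IntermediateField ℚ ℂ) [NumberField F]
    (hF : F ≤ IntermediateField.adjoin ℚ {x : ℂ | ∃ c ∈ H0,
      x = eta c (Complex.exp (2 * Real.pi * Complex.I / (dd (sp c) : ℕ)))}) : RZF N F f := by
  refine core hf H0 hfin hp (fun c hc => ?_) F hF
  have h1 := (TwNZ_iff hf (hfin _ (H0.inv_mem hc)) (hp _ (H0.inv_mem hc))).1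
    (hH _ (H0.inv_mem hc))
  intro h2
  apply h1
  have e : (c⁻¹)⁻¹ = c := mul_invF (G := Fam) c
  exact (congrArg (bt (bv f)) e).trans h2

/-- the conditions on the base group -/
structure GB {ι : Type} (N : ι → ℕ) (G : Subgroup Fam) : Prop where
  fg : (G : Set Fam).Finite
  fin : ∀ c ∈ G, {q | c q ≠ 1}.Finite
  adm : ∀ c ∈ G, ∀ q, c q ≠ 1 → q.Prime ∧ ∀ i, ¬ q ∣ N i

/-- the conditions on the group -/
structure HG {ι : Type} (N : ι → ℕ)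
    (f : (i : ι) → CuspForm (Gamma0 (N i) : Subgroup (GL (Fin 2) ℝ)) 2) (G : Subgroup Fam)
    (lam : Ideal (integralClosure ℤ ℂ)) (l n : ℕ) (H : Subgroup Fam) : Prop where
  pow : ∀ c ∈ H, c ^ (l ^ n) = 1
  fin : ∀ c ∈ H, {q | c q ≠ 1}.Finite
  adm : ∀ c ∈ H, ∀ q, c q ≠ 1 → q.Prime ∧ ∀ i, ¬ q ∣ N i ∧ ∀ h ∈ G, h q = 1 ∧
    ∀ x ∈ lam, (x : ℂ) ≠ co (f i) q - cvl h q - (cvl h q)⁻¹

section
variable {ι : Type} {N : ι → ℕ} [∀ i, NeZero (N i)]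
    {f : (i : ι) → CuspForm (Gamma0 (N i) : Subgroup (GL (Fin 2) ℝ)) 2}
    {lam : Ideal (integralClosure ℤ ℂ)} {l n : ℕ} {G : Subgroup Fam}

omit [∀ i, NeZero (N i)] in
lemma GB.bt (hG : GB N G) : BT (fun x : ι × G => N x.1) (fun x => (x.2 : Fam)) :=
  ⟨fun x => hG.fin _ x.2.2, fun x q hq => ⟨(hG.adm _ x.2.2 q hq).1, (hG.adm _ x.2.2 q hq).2 x.1⟩⟩

omit [∀ i, NeZero (N i)] in
lemma HG.ht {H : Subgroup Fam} (hH : HG N f G lam l n H) (hne : Nonempty ι) :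
    HT (fun x : ι × G => N x.1) (fun x => f x.1) (fun x => (x.2 : Fam)) lam l n H :=
  ⟨hH.pow, hH.fin, fun c hc q hq => ⟨(hH.adm c hc q hq).1, fun x =>
    ⟨((hH.adm c hc q hq).2 x.1).1, (((hH.adm c hc q hq).2 x.1).2 _ x.2.2).1,
      (((hH.adm c hc q hq).2 x.1).2 _ x.2.2).2⟩⟩⟩

lemma sup_fin {A B : Subgroup Fam} (hA : ∀ c ∈ A, {q | c q ≠ 1}.Finite)
    (hB : ∀ c ∈ B, {q | c q ≠ 1}.Finite) : ∀ c ∈ A ⊔ B, {q | c q ≠ 1}.Finite := by
  intro c hc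
  obtain ⟨a, ha, b, hb, rfl⟩ := (Subgroup.mem_sup (C := Fam)).1 hc
  exact fin_mul (hA a ha) (hB b hb)

lemma sup_adm {A B : Subgroup Fam} {P : ℕ → Prop} (hA : ∀ c ∈ A, ∀ q, c q ≠ 1 → P q)
    (hB : ∀ c ∈ B, ∀ q, c q ≠ 1 → P q) : ∀ c ∈ A ⊔ B, ∀ q, c q ≠ 1 → P q := by
  intro c hc q hq
  obtain ⟨a, ha, b, hb, rfl⟩ := (Subgroup.mem_sup (C := Fam)).1 hc
  rcases mul_ne_one hq with h | h
  · exact hA a ha q h
  · exact hB b hb q h

/-- the fields attached to `G` and a subgroup `B` of `H` with nonvanishing -/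
theorem field_of [Nonempty ι] (hf : ∀ i, IsNf (N i) (f i)) (hG : GB N G) {H : Subgroup Fam}
    (hH : HG N f G lam l n H) (B : Subgroup Fam) (hB : B ≤ H)
    (hnz : ∀ h ∈ G, ∀ c ∈ B, ∀ i, TwNZ (f i) (h * c))
    (F : IntermediateField ℚ ℂ) [NumberField F]
    (hF : F ≤ IntermediateField.adjoin ℚ {x : ℂ | ∃ h ∈ G, ∃ c ∈ B,
      x = eta (h * c) (Complex.exp (2 * Real.pi * Complex.I / (dd (sp (h * c)) : ℕ)))}) (i : ι) :
    RZF (N i) F (f i) := by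
  refine core_tw (hf i) (G ⊔ B) (sup_fin hG.fin fun c hc => hH.fin c (hB hc))
    (sup_adm (fun c hc q hq => ⟨(hG.adm c hc q hq).1, (hG.adm c hc q hq).2 i⟩)
      (fun c hc q hq => ⟨(hH.adm c (hB hc) q hq).1, ((hH.adm c (hB hc) q hq).2 i).1⟩))
    (fun x hx => ?_) F (hF.trans (IntermediateField.adjoin.mono ℚ _ _ ?_))
  · obtain ⟨h, hh, c, hc, rfl⟩ := (Subgroup.mem_sup (C := Fam)).1 hx
    exact hnz h hh c hc i
  · rintro x ⟨h, hh, c, hc, rfl⟩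
    exact ⟨h * c, Subgroup.mul_mem_sup hh hc, rfl⟩

/-- **Infinite towers over a fixed field.** -/
theorem tower_over [Fintype ι] [Nonempty ι] (hf : ∀ i, IsNf (N i) (f i)) (hG : GB N G)
    (h0 : ∀ h ∈ G, ∀ i, TwNZ (f i) h) (hl : l.Prime) (hlam : lam.IsPrime)
    (hmem : (l : integralClosure ℤ ℂ) ∈ lam) (H : Subgroup Fam) (hH : HG N f G lam l n H)
    (hinf : (H : Set Fam).Infinite) :
    ∃ H0 : Subgroup Fam, H0 ≤ H ∧ (H0 : Set Fam).Infinite ∧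
      ∀ (F : IntermediateField ℚ ℂ) [NumberField F],
        F ≤ IntermediateField.adjoin ℚ {x : ℂ | ∃ h ∈ G, ∃ c ∈ H0,
          x = eta (h * c) (Complex.exp (2 * Real.pi * Complex.I / (dd (sp (h * c)) : ℕ)))} →
        ∀ i, RZF (N i) F (f i) := by
  have : Finite G := hG.fg
  have : Fintype G := Fintype.ofFinite G
  obtain ⟨H0, h1, h2, h3⟩ := towerN (ι := ι × G) (N := fun x => N x.1) (f := fun x => f x.1)
    (ψ := fun x => (x.2 : Fam)) (fun x => hf x.1) hG.bt (fun x => h0 _ x.2.2 x.1) hl hlam hmem H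
    (hH.ht inferInstance) hinf
  refine ⟨H0, h1, h2, fun F _ hF i => ?_⟩
  exact field_of hf hG hH H0 h1 (fun h hh c hc i => h3 c hc (i, ⟨h, hh⟩)) F hF i

/-- **Tuples over a fixed field.** -/
theorem tuples_over [Fintype ι] [Nonempty ι] (hf : ∀ i, IsNf (N i) (f i)) (hG : GB N G)
    (h0 : ∀ h ∈ G, ∀ i, TwNZ (f i) h) (hl : l.Prime) (hlam : lam.IsPrime)
    (hmem : (l : integralClosure ℤ ℂ) ∈ lam) (r : ℕ) :
    ∃ V : ℕ, ∀ H : Subgroup Fam, HG N f G lam l n H →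
      ∃ K : Finset (Fin r → Fam), K.card ≤ 2 ^ V ∧ (∀ k ∈ K, ∀ j, k j ∈ H) ∧
        ∀ c : Fin r → Fam, (∀ j, c j ∈ H) → ∃ k ∈ K,
          ∀ (F : IntermediateField ℚ ℂ) [NumberField F],
            F ≤ IntermediateField.adjoin ℚ {x : ℂ | ∃ h ∈ G, ∃ J : Fin r → ℕ,
              x = eta (h * ∏ j, (c j * k j) ^ J j) (Complex.exp (2 * Real.pi * Complex.I /
                (dd (sp (h * ∏ j, (c j * k j) ^ J j)) : ℕ)))} →
            ∀ i, RZF (N i) F (f i) := by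
  have : Finite G := hG.fg
  have : Fintype G := Fintype.ofFinite G
  obtain ⟨V, hV⟩ := tuplesN (ι := ι × G) (N := fun x => N x.1) (f := fun x => f x.1)
    (ψ := fun x => (x.2 : Fam)) (n := n) (fun x => hf x.1) hG.bt (fun x => h0 _ x.2.2 x.1) hl hlam
    hmem r
  refine ⟨V, fun H hH => ?_⟩
  obtain ⟨K, hK1, hK2, hK3⟩ := hV H (hH.ht inferInstance)
  refine ⟨K, hK1, hK2, fun c hc => ?_⟩
  obtain ⟨k, hk, h4⟩ := hK3 c hc
  refine ⟨k, hk, fun F _ hF i => ?_⟩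
  obtain ⟨H0, hH0H, hrep2, hrep⟩ := closure_tuple' (pow_pos hl.pos n) (fun j => c j * k j)
    (fun j => hH.pow _ (H.mul_mem (hc j) (hK2 k hk j))) H (fun j => H.mul_mem (hc j) (hK2 k hk j))
  refine field_of hf hG hH H0 hH0H (fun h hh x hx i => ?_) F (hF.trans
    (IntermediateField.adjoin.mono ℚ _ _ ?_)) i
  · obtain ⟨J, rfl⟩ := hrep x hx
    exact h4 J (i, ⟨h, hh⟩)
  · rintro x ⟨h, hh, J, rfl⟩
    exact ⟨h, hh, _, hrep2 J, rfl⟩

end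

end Pool.Agent.Q6.NW
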