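import Pool.Agent.Q6.NW.TwA

/-!
Infinite subgroups, for the characters `ψ_i c`.
-/

set_option autoImplicit false

namespace Pool.Agent.Q6.NW

open Finset Pool.Agent.Y18.BSD Pool.Agent.Y18.LP

section main
variable {ι : Type} [Fintype ι] {N : ι → ℕ} {f : ι → ℚ → ℂ} {a : ι → ℕ → ℂ} {ψ : ι → Fam}

/-- **one more generator** -/
theorem ext_oneT (hms : ∀ i, MS (N i) (f i) (a i)) (hne : ∀ i, ∃ r, f i r ≠ 0) {l : ℕ}
    (hl : l.Prime) (n : ℕ) {E : ℕ} (hE : 0 < E) (heE : l ^ n ∣ E)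
    (lam : Ideal (integralClosure ℤ ℂ))
    (hlam : lam.IsPrime) (hmem : (l : integralClosure ℤ ℂ) ∈ lam)
    (hψ : ∀ i, TOk (ψ i) E (AdT N a ψ lam)) (H : Subgroup Fam)
    (hH : Ok H (l ^ n) (AdT N a ψ lam)) (F : Subgroup Fam) (hF : (F : Set Fam).Finite)
    (hFH : F ≤ H) (hFn : ∀ c ∈ F, ∀ i, bt (f i) (ψ i * c) ≠ 0) :
    ∃ K : Finset Fam, (∀ k ∈ K, k ∈ H) ∧ ∀ c ∈ H, ∃ k ∈ K, ∀ h ∈ F, ∀ j : ℕ, ∀ i,
      bt (f i) (ψ i * (h * (c * k) ^ j)) ≠ 0 := by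
  classical
  have he : 0 < l ^ n := pow_pos hl.pos n
  obtain ⟨R, hR0, P, al, hP, hR, hP1, hA⟩ := setupT (ψ := ψ) hms hne hl n hE lam hlam hmem
  have hR' : ∀ z : ℂ, z ^ (l ^ n) = 1 → z ∈ R := fun z hz => hR z (by
    obtain ⟨k, hk⟩ := heE
    rw [hk, pow_mul, hz, one_pow])
  set s : Finset (ι × Fam × ℕ) := univ ×ˢ (hF.toFinset ×ˢ range (l ^ n)) with hs
  have hmems : ∀ x : ι × Fam × ℕ, x ∈ s ↔ x.2.1 ∈ F ∧ x.2.2 < l ^ n := by
    intro x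
    rw [hs, Finset.mem_product, Finset.mem_product, Set.Finite.mem_toFinset, Finset.mem_range]
    simp
  have hg := Good.prod (Γ := H) (e := l ^ n) hP.isPrime s
    (fun x => Submodule.span R (Set.range (f x.1)))
    (fun x (c : H) => bt (f x.1) (ψ x.1 * (x.2.1 * (c : Fam) ^ x.2.2)))
    (fun x hx => by
      have h1 := (goodT (hms x.1) heE hR (al x.1) hP.isPrime hP1 (hψ x.1) hH (hA x.1)).comp hR'
        ⟨x.2.1, hFH ((hmems x).1 hx).1⟩ x.2.2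
      exact h1)
  have hval : ∏ x ∈ s, bt (f x.1) (ψ x.1 * (x.2.1 * ((1 : H) : Fam) ^ x.2.2)) ≠ 0 := by
    refine Finset.prod_ne_zero_iff.2 fun x hx => ?_
    have e1 : ((1 : H) : Fam) ^ x.2.2 = 1 := one_pow x.2.2
    have e3 : x.2.1 * ((1 : H) : Fam) ^ x.2.2 = x.2.1 := by
      rw [e1]
      exact mul_one x.2.1
    rw [e3]
    exact hFn _ ((hmems x).1 hx).1 _
  obtain ⟨V, hV⟩ := krull hP.ne_top (fg_prod s _ fun i _ => span_fg (hms i.1).fin) (hg.mem 1) hval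
  obtain ⟨K, hK1, hK2⟩ := correction hR' hP hP1 hg (V := V) hV
  refine ⟨(K.map (fun c : H => (c : Fam))).toFinset, ?_, ?_⟩
  · intro k hk
    rw [List.mem_toFinset, List.mem_map] at hk
    obtain ⟨c, _, rfl⟩ := hk
    exact c.2
  · intro c hc
    obtain ⟨k, hk, h1⟩ := hK2 ⟨c, hc⟩
    refine ⟨k, ?_, fun h hh j i => ?_⟩
    · rw [List.mem_toFinset, List.mem_map]
      exact ⟨k, hk, rfl⟩
    · have hpow : (c * (k : Fam)) ^ j = (c * (k : Fam)) ^ (j % l ^ n) := by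
        have h2 : (c * (k : Fam)) ^ (l ^ n) = 1 := hH.pow _ (H.mul_mem hc k.2)
        exact pow_mod' (G := Fam) (x := c * (k : Fam)) h2 j
      rw [hpow]
      exact Finset.prod_ne_zero_iff.1 h1 (i, h, j % l ^ n)
        ((hmems _).2 ⟨hh, Nat.mod_lt _ he⟩)

/-- **infinite subgroups** -/
theorem infiniteT (hms : ∀ i, MS (N i) (f i) (a i)) (hne : ∀ i, ∃ r, f i r ≠ 0) {l : ℕ}
    (hl : l.Prime) (n : ℕ) {E : ℕ} (hE : 0 < E) (heE : l ^ n ∣ E)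
    (lam : Ideal (integralClosure ℤ ℂ))
    (hlam : lam.IsPrime) (hmem : (l : integralClosure ℤ ℂ) ∈ lam)
    (hψ : ∀ i, TOk (ψ i) E (AdT N a ψ lam)) (H : Subgroup Fam)
    (hH : Ok H (l ^ n) (AdT N a ψ lam)) (hinf : (H : Set Fam).Infinite) (F : Subgroup Fam)
    (hFH : F ≤ H) (hFn : ∀ c ∈ F, ∀ i, bt (f i) (ψ i * c) ≠ 0) :
    ∃ H0 : Subgroup Fam, F ≤ H0 ∧ H0 ≤ H ∧ (H0 : Set Fam).Infinite ∧
      ∀ c ∈ H0, ∀ i, bt (f i) (ψ i * c) ≠ 0 := by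
  classical
  let Z : Set (Subgroup Fam) := {G | G ≤ H ∧ ∀ c ∈ G, ∀ i, bt (f i) (ψ i * c) ≠ 0}
  obtain ⟨G, hFG, hG⟩ := zorn_le_nonempty₀ Z (by
    intro C hC hchain G0 hG0
    refine ⟨sSup C, ⟨sSup_le fun G hG => (hC hG).1, fun c hc i => ?_⟩, fun G hG => le_sSup hG⟩
    have hdir : DirectedOn (· ≤ ·) C := hchain.directedOn
    rw [Subgroup.mem_sSup_of_directedOn ⟨G0, hG0⟩ hdir] at hc
    obtain ⟨G, hG, hcG⟩ := hc
    exact (hC hG).2 c hcG i) F ⟨hFH, hFn⟩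
  refine ⟨G, hFG, hG.prop.1, ?_, hG.prop.2⟩
  intro hfin
  obtain ⟨K, hK1, hK2⟩ := ext_oneT hms hne hl n hE heE lam hlam hmem hψ H hH G hfin hG.prop.1
    hG.prop.2
  -- an element of `H` all of whose translates are outside of `G`
  have hbad : (⋃ k ∈ K, (fun g : Fam => g * k⁻¹) '' (G : Set Fam)).Finite :=
    Set.Finite.biUnion (Finset.finite_toSet K) fun k _ => hfin.image _
  obtain ⟨c, hcH, hc⟩ := hinf.exists_notMem_finite hbad
  obtain ⟨k, hk, h1⟩ := hK2 c hcH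
  have hckG : c * k ∉ G := by
    intro h2
    apply hc
    simp only [Set.mem_iUnion]
    exact ⟨k, hk, c * k, h2, mul_inv_cancel_right c k⟩
  have hckH : c * k ∈ H := H.mul_mem hcH (hK1 k hk)
  have hle : G ⊔ Subgroup.zpowers (c * k) ∈ Z := by
    refine ⟨sup_le hG.prop.1 (by rwa [Subgroup.zpowers_le]), ?_⟩
    intro x hx i
    obtain ⟨g, hg, y, hy, rfl⟩ := (Subgroup.mem_sup (C := Fam)).1 hx
    obtain ⟨j, rfl⟩ := Subgroup.mem_zpowers_iff.1 hy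
    have he : 0 < l ^ n := pow_pos hl.pos n
    have h2 : (c * k) ^ (l ^ n) = 1 := hH.pow _ hckH
    obtain ⟨m, hm⟩ : ∃ m : ℕ, (c * k) ^ j = (c * k) ^ m := zpow_mod' (G := Fam) (x := c * k) he h2 j
    have h3 : ψ i * (g * (c * k) ^ j) = ψ i * (g * (c * k) ^ m) :=
      congrArg (fun y => ψ i * (g * y)) hm
    intro h5
    refine h1 g hg m i ?_
    have h6 : bt (f i) (ψ i * (g * (c * k) ^ j)) = bt (f i) (ψ i * (g * (c * k) ^ m)) :=
      congrArg (bt (f i)) h3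
    exact h6.symm.trans h5
  have h3 := hG.le_of_ge hle le_sup_left
  exact hckG (h3 (Subgroup.mem_sup_right (Subgroup.mem_zpowers _)))

end main

end Pool.Agent.Q6.NW
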