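import Pool.Agent.Q6.NW.TwI
import Pool.Agent.Q6.NW.Main
import Pool.Agent.Q6.NW.Count
import Pool.Agent.W440.TW.Twist

/-!
The twists of newforms by the characters `ψ_i c`.
-/

set_option autoImplicit false

open NumberField IsDedekindDomain UpperHalfPlane MatrixGroups CongruenceSubgroup

namespace Pool.Agent.Q6.NW

open Pool.Agent.Y18.BSD Pool.Agent.Y18.LP
open Pool.Agent.TH940 (Fr)
open Pool.Agent.Y18.NF (ez)

/-- `L(f ⊗ χ_c, 1) ≠ 0` -/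
def TwNZ {N : ℕ} (f : CuspForm (Gamma0 N : Subgroup (GL (Fin 2) ℝ)) 2) (c : Fam) : Prop :=
  ∃ G : ℂ → ℂ, Differentiable ℂ G ∧ (∀ s : ℂ, 3 / 2 < s.re →
    HasProd (fun p : Nat.Primes => ez N (co f) (cvl c p) s p) (G s)) ∧ G 1 ≠ 0

section
variable {N : ℕ} [NeZero N] {f : CuspForm (Gamma0 N : Subgroup (GL (Fin 2) ℝ)) 2}

/-- the complete twisted `L`-function, with the formula for its value -/
theorem tw_full {w : ℝ} (hnf : W388.IsNewf N 2 f w) (hfr : Fr f (w : ℂ)) (hc : Cf N (co f))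
    {c : Fam} (hfin : {q | c q ≠ 1}.Finite) (hp : ∀ q ∈ sp c, q.Prime ∧ ¬ q ∣ N) :
    ∃ G : ℂ → ℂ, Differentiable ℂ G ∧ (∀ s : ℂ, 3 / 2 < s.re →
      HasProd (fun p : Nat.Primes => ez N (co f) (cvl c p) s p) (G s)) ∧
      ∃ κ : ℂ, κ ≠ 0 ∧ κ * G 1 = bt (bv f) c⁻¹ := by
  classical
  have hne : NeZero (dd (sp c)) := ⟨dd_ne_zero fun q hq => (hp q hq).1⟩
  have hco : Nat.Coprime (dd (sp c)) N := by
    unfold dd
    rw [Nat.coprime_prod_left_iff]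
    intro q hq
    exact (Nat.Prime.coprime_iff_not_dvd (hp q hq).1).2 (hp q hq).2
  have hprim := chi_primitive c hfin fun q hq => (hp q hq).1
  obtain ⟨L, hL1, hL2, hL3⟩ := exists_L hnf hfr hc (dd (sp c)) (chi c) hprim hco
  refine ⟨L, hL1, fun s hs => ?_, gaussSum (chi c)⁻¹ (ZMod.stdAddChar (N := dd (sp c))), ?_, ?_⟩
  · have h2 := hc.euler (chi c) hs
    rw [← hL2 s hs] at h2
    have h3 : (fun p : ℕ => if p.Prime then (lf N (co f) (chi c) s p)⁻¹ else 1) =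
        Set.mulIndicator {p : ℕ | p.Prime} (fun p => (lf N (co f) (chi c) s p)⁻¹) := by
      funext p
      by_cases hp : p.Prime
      · rw [if_pos hp, Set.mulIndicator_of_mem (show p ∈ {p : ℕ | p.Prime} from hp)]
      · rw [if_neg hp, Set.mulIndicator_of_notMem (show p ∉ {p : ℕ | p.Prime} from hp)]
    rw [h3] at h2
    have h4 := hasProd_subtype_iff_mulIndicator.2 h2
    refine (congrArg (fun g => HasProd g (L s)) (funext fun p : Nat.Primes => ?_)).mp h4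
    show (lf N (co f) (chi c) s (p : ℕ))⁻¹ = _
    unfold lf ez
    rw [chi_nat]
    congr 2
    split_ifs with h
    · simp
    · have hp0 : ((p : ℕ) : ℂ) ≠ 0 := by exact_mod_cast p.2.ne_zero
      have e : ((p : ℕ) : ℂ) ^ (1 - 2 * s) = (p : ℕ) * (((p : ℕ) : ℂ) ^ (-s)) ^ 2 := by
        rw [show (1 - 2 * s : ℂ) = 1 + ((-s) + (-s)) by ring, Complex.cpow_add _ _ hp0,
          Complex.cpow_add _ _ hp0, Complex.cpow_one]
        ring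
      rw [e]
  · exact W440.TW.gauss_ne_zero _ (W440.TW.inv_primitive _ hprim)
  · rw [hL3, bt_inv (bv f) hfin]

theorem TwNZ_iff (hf : IsNf N f) {c : Fam} (hfin : {q | c q ≠ 1}.Finite)
    (hp : ∀ q, c q ≠ 1 → q.Prime ∧ ¬ q ∣ N) : TwNZ f c ↔ bt (bv f) c⁻¹ ≠ 0 := by
  obtain ⟨w, hnf, hfr⟩ := hf.newf
  obtain ⟨L, hL1, hL2, κ, hκ, hL3⟩ := tw_full hnf hfr hf.cf hfin fun q hq =>
    hp q ((mem_sp hfin q).1 hq)
  constructor
  · rintro ⟨F, hF1, hF2, hF3⟩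
    have hLF : ∀ s : ℂ, (3 : ℝ) / 2 < s.re → L s = F s := fun s hs => (hL2 s hs).unique (hF2 s hs)
    have hA : AnalyticOnNhd ℂ L Set.univ := fun s _ => hL1.analyticAt s
    have hB : AnalyticOnNhd ℂ F Set.univ := fun s _ => hF1.analyticAt s
    have hopen : IsOpen {s : ℂ | (3 : ℝ) / 2 < s.re} := isOpen_lt continuous_const
      Complex.continuous_re
    have hev : L =ᶠ[nhds (2 : ℂ)] F := by
      filter_upwards [hopen.mem_nhds (show (2 : ℂ) ∈ {s : ℂ | (3 : ℝ) / 2 < s.re} by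
        show (3 : ℝ) / 2 < (2 : ℂ).re
        norm_num)] with s hs
      exact hLF s hs
    have hLF' : L = F := hA.eq_of_eventuallyEq hB hev
    rw [← hL3, hLF']
    exact mul_ne_zero hκ hF3
  · intro h
    refine ⟨L, hL1, hL2, fun h0 => h ?_⟩
    rw [← hL3, h0, mul_zero]

end

/-- the value of a family at a prime outside of the support -/
lemma ev_cvl {ψ : Fam} (hfin : {q | ψ q ≠ 1}.Finite) (hp : ∀ q, ψ q ≠ 1 → q.Prime) {q : ℕ}
    (hq : q.Prime) (h : ψ q = 1) : ((ev ψ (sp ψ) q : ℂˣ) : ℂ) = cvl ψ q := by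
  unfold ev cvl
  rw [← Units.coeHom_apply, map_prod]
  refine Finset.prod_congr rfl fun p hp' => ?_
  have h1 := (mem_sp hfin p).1 hp'
  have h2 : q.Coprime p := (Nat.coprime_primes hq (hp p h1)).2 fun h3 => h1 (h3 ▸ h)
  rw [dif_pos h2, dif_pos h2, Units.coeHom_apply]

lemma ev_inv (ψ : Fam) (T : Finset ℕ) (q : ℕ) : ev ψ⁻¹ T q = (ev ψ T q)⁻¹ := by
  unfold ev
  rw [← Finset.prod_inv_distrib]
  refine Finset.prod_congr rfl fun p _ => ?_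
  split_ifs with h
  · rfl
  · rw [inv_one]

lemma inv_ne_one {ψ : Fam} (q : ℕ) : ψ⁻¹ q ≠ 1 ↔ ψ q ≠ 1 := by
  have h : ψ⁻¹ q = (ψ q)⁻¹ := rfl
  rw [h]
  constructor
  · intro h1 h2
    apply h1
    rw [h2]
    ext x
    simp
  · intro h1 h2
    apply h1
    have h3 : ψ q = ((ψ q)⁻¹)⁻¹ := by
      ext x
      simp
    rw [h3, h2]
    ext x
    simp

lemma exists_exp {c : Fam} (hfin : {q | c q ≠ 1}.Finite) (hp : ∀ q, c q ≠ 1 → q.Prime) :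
    ∃ e : ℕ, 0 < e ∧ c ^ e = 1 := by
  classical
  refine ⟨∏ q ∈ sp c, (q - 1), Finset.prod_pos fun q hq => ?_, ?_⟩
  · have := (hp q ((mem_sp hfin q).1 hq)).two_le
    omega
  · funext q
    have h0 : (c ^ (∏ q ∈ sp c, (q - 1)) : Fam) q = (c q) ^ (∏ q ∈ sp c, (q - 1)) := rfl
    rw [h0]
    by_cases h : c q = 1
    · rw [h]
      ext x
      simp
    · have hq := hp q h
      have hne : NeZero q := ⟨hq.ne_zero⟩
      have hfact : Fact q.Prime := ⟨hq⟩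
      obtain ⟨k, hk⟩ : (q - 1) ∣ ∏ q ∈ sp c, (q - 1) :=
        Finset.dvd_prod_of_mem (fun q => q - 1) ((mem_sp hfin q).2 h)
      rw [hk]
      ext u
      have h3 : (c q u) ^ (q - 1) = 1 := by
        rw [← map_pow, ZMod.units_pow_card_sub_one_eq_one, map_one]
      have h4 : ((c q) ^ ((q - 1) * k)) u = (c q u) ^ ((q - 1) * k) := rfl
      rw [h4, pow_mul, h3, one_pow]
      rfl

/-- the conditions on the base characters -/
structure BT {ι : Type} (N : ι → ℕ) (ψ : ι → Fam) : Prop where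
  fin : ∀ i, {q | ψ i q ≠ 1}.Finite
  adm : ∀ i q, ψ i q ≠ 1 → q.Prime ∧ ¬ q ∣ N i

/-- the conditions on the group -/
structure HT {ι : Type} (N : ι → ℕ)
    (f : (i : ι) → CuspForm (Gamma0 (N i) : Subgroup (GL (Fin 2) ℝ)) 2) (ψ : ι → Fam)
    (lam : Ideal (integralClosure ℤ ℂ)) (l n : ℕ) (H : Subgroup Fam) : Prop where
  pow : ∀ c ∈ H, c ^ (l ^ n) = 1
  fin : ∀ c ∈ H, {q | c q ≠ 1}.Finite
  adm : ∀ c ∈ H, ∀ q, c q ≠ 1 → q.Prime ∧ ∀ i, ¬ q ∣ N i ∧ ψ i q = 1 ∧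
    ∀ x ∈ lam, (x : ℂ) ≠ co (f i) q - cvl (ψ i) q - (cvl (ψ i) q)⁻¹

section
variable {ι : Type} {N : ι → ℕ} [∀ i, NeZero (N i)]
    {f : (i : ι) → CuspForm (Gamma0 (N i) : Subgroup (GL (Fin 2) ℝ)) 2} {ψ : ι → Fam}
    {lam : Ideal (integralClosure ℤ ℂ)} {l n : ℕ}

omit [∀ i, NeZero (N i)] in
lemma HT.ok (hψ : BT N ψ) {H : Subgroup Fam} (hH : HT N f ψ lam l n H) :
    Ok H (l ^ n) (AdT N (fun i => co (f i)) (fun i => (ψ i)⁻¹) lam) := by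
  refine ⟨hH.pow, hH.fin, fun c hc q hq => ?_⟩
  obtain ⟨h1, h2⟩ := hH.adm c hc q hq
  refine ⟨h1, fun i => ?_⟩
  obtain ⟨h3, h4, h5⟩ := h2 i
  refine ⟨h3, ?_, fun x hx h6 => h5 x hx ?_⟩
  · by_contra h
    exact (inv_ne_one q).1 h h4
  · have h7 : ((ev (ψ i)⁻¹ (sp (ψ i)⁻¹) q : ℂˣ) : ℂ) = (cvl (ψ i) q)⁻¹ := by
      rw [sp_inv (hψ.fin i), ev_inv, Units.val_inv_eq_inv_val,
        ev_cvl (hψ.fin i) (fun q hq => (hψ.adm i q hq).1) h1 h4]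
    rw [h6, Units.val_inv_eq_inv_val, h7, inv_inv]

omit [∀ i, NeZero (N i)] in
lemma BT.tok (hψ : BT N ψ) (a : ι → ℕ → ℂ) {E : ℕ} (hE : ∀ i, (ψ i) ^ E = 1) (i : ι) :
    TOk ((ψ i)⁻¹) E (AdT N a (fun i => (ψ i)⁻¹) lam) where
  pow := by
    have : ∀ {G : Type} [CommGroup G] (x : G), x ^ E = 1 → (x⁻¹) ^ E = 1 := by
      intro G _ x hx
      rw [inv_pow, hx, inv_one]
    exact this (G := Fam) _ (hE i)
  fin := (hψ.fin i).subset fun q hq => (inv_ne_one q).1 hq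
  pr := fun q hq => (hψ.adm i q ((inv_ne_one q).1 hq)).1
  dis := fun q hq => (hq.2 i).2.1

omit [∀ i, NeZero (N i)] in
lemma exists_E [Fintype ι] (hψ : BT N ψ) (l n : ℕ) (hl : l.Prime) :
    ∃ E : ℕ, 0 < E ∧ l ^ n ∣ E ∧ ∀ i, (ψ i) ^ E = 1 := by
  classical
  choose e he1 he2 using fun i => exists_exp (hψ.fin i) fun q hq => (hψ.adm i q hq).1
  refine ⟨l ^ n * ∏ i, e i, Nat.mul_pos (pow_pos hl.pos n) (Finset.prod_pos fun i _ => he1 i),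
    dvd_mul_right _ _, fun i => ?_⟩
  exact pow_dvdF (G := Fam) (dvd_mul_of_dvd_right (Finset.dvd_prod_of_mem e (Finset.mem_univ i)) _)
    (he2 i)

lemma fin_mul {c k : Fam} (hc : {q | c q ≠ 1}.Finite) (hk : {q | k q ≠ 1}.Finite) :
    {q | (c * k) q ≠ 1}.Finite := (sp_mul hc hk).1

lemma mul_ne_one {c k : Fam} {q : ℕ} (h : (c * k) q ≠ 1) : c q ≠ 1 ∨ k q ≠ 1 := by
  by_contra h1
  push Not at h1
  apply h
  show c q * k q = 1
  rw [h1.1, h1.2]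
  exact mul_one (1 : (ZMod q)ˣ →* ℂˣ)

lemma inv_mulF {G : Type} [CommGroup G] (x y : G) : (x * y)⁻¹ = x⁻¹ * y⁻¹ := mul_inv x y

/-- nonvanishing of the twist by `ψ_i c` -/
lemma HT.iff (hf : ∀ i, IsNf (N i) (f i)) (hψ : BT N ψ) {H : Subgroup Fam}
    (hH : HT N f ψ lam l n H) {c : Fam} (hc : c ∈ H) (i : ι) :
    TwNZ (f i) (ψ i * c) ↔ bt (bv (f i)) ((ψ i)⁻¹ * c⁻¹) ≠ 0 := by
  rw [TwNZ_iff (hf i) (fin_mul (hψ.fin i) (hH.fin c hc)) fun q hq => by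
    rcases mul_ne_one hq with h | h
    · exact hψ.adm i q h
    · exact ⟨(hH.adm c hc q h).1, ((hH.adm c hc q h).2 i).1⟩]
  have : (ψ i * c)⁻¹ = (ψ i)⁻¹ * c⁻¹ := inv_mulF (G := Fam) _ _
  rw [this]

lemma nz_ms (hf : ∀ i, IsNf (N i) (f i)) (i : ι) : MS (N i) (bv (f i)) (co (f i)) := by
  obtain ⟨w, -, hfr⟩ := (hf i).newf
  exact ms_of (hf i).hrel hfr

lemma nz_base (hf : ∀ i, IsNf (N i) (f i)) (hψ : BT N ψ) (h0 : ∀ i, TwNZ (f i) (ψ i)) (i : ι) :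
    bt (bv (f i)) (ψ i)⁻¹ ≠ 0 := (TwNZ_iff (hf i) (hψ.fin i) (hψ.adm i)).1 (h0 i)

lemma prod_invF {G : Type} [CommGroup G] {r : ℕ} (c k : Fin r → G) (J : Fin r → ℕ) :
    (∏ j, (c j * (k j)⁻¹) ^ J j)⁻¹ = ∏ j, ((c j)⁻¹ * k j) ^ J j := by
  rw [← Finset.prod_inv_distrib]
  refine Finset.prod_congr rfl fun j _ => ?_
  rw [← inv_pow, mul_inv, inv_inv]

lemma prod_memF {G : Type} [CommGroup G] (H : Subgroup G) {r : ℕ} (c k : Fin r → G)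
    (hc : ∀ j, c j ∈ H) (hk : ∀ j, k j ∈ H) (J : Fin r → ℕ) : ∏ j, (c j * k j) ^ J j ∈ H :=
  H.prod_mem fun j _ => H.pow_mem (H.mul_mem (hc j) (hk j)) _

lemma mul_invF {G : Type} [CommGroup G] (x : G) : (x⁻¹)⁻¹ = x := inv_inv x

/-- **Infinite subgroups.** -/
theorem towerN [Fintype ι] (hf : ∀ i, IsNf (N i) (f i)) (hψ : BT N ψ)
    (h0 : ∀ i, TwNZ (f i) (ψ i)) (hl : l.Prime) (hlam : lam.IsPrime)
    (hmem : (l : integralClosure ℤ ℂ) ∈ lam) (H : Subgroup Fam) (hH : HT N f ψ lam l n H)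
    (hinf : (H : Set Fam).Infinite) :
    ∃ H0 : Subgroup Fam, H0 ≤ H ∧ (H0 : Set Fam).Infinite ∧
      ∀ c ∈ H0, ∀ i, TwNZ (f i) (ψ i * c) := by
  obtain ⟨E, hE1, hE2, hE3⟩ := exists_E hψ l n hl
  obtain ⟨H0, -, h1, h2, h3⟩ := infiniteT (ψ := fun i => (ψ i)⁻¹) (nz_ms hf)
    (fun i => bt_ne (nz_base hf hψ h0 i)) hl n hE1 hE2 lam hlam hmem
    (fun i => hψ.tok (fun i => co (f i)) hE3 i) H (hH.ok hψ) hinf ⊥ bot_le (by
      intro c hc i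
      rw [Subgroup.mem_bot] at hc
      have e1 : (ψ i)⁻¹ * c = (ψ i)⁻¹ := by
        rw [hc]
        exact mul_one (ψ i)⁻¹
      rw [e1]
      exact nz_base hf hψ h0 i)
  refine ⟨H0, h1, h2, fun c hc i => ?_⟩
  rw [hH.iff hf hψ (h1 hc) i]
  exact h3 _ (H0.inv_mem hc) i

/-- **Tuples.** -/
theorem tuplesN [Fintype ι] (hf : ∀ i, IsNf (N i) (f i)) (hψ : BT N ψ)
    (h0 : ∀ i, TwNZ (f i) (ψ i)) (hl : l.Prime) (hlam : lam.IsPrime)
    (hmem : (l : integralClosure ℤ ℂ) ∈ lam) (r : ℕ) :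
    ∃ V : ℕ, ∀ H : Subgroup Fam, HT N f ψ lam l n H →
      ∃ K : Finset (Fin r → Fam), K.card ≤ 2 ^ V ∧ (∀ k ∈ K, ∀ j, k j ∈ H) ∧
        ∀ c : Fin r → Fam, (∀ j, c j ∈ H) → ∃ k ∈ K, ∀ J : Fin r → ℕ, ∀ i,
          TwNZ (f i) (ψ i * ∏ j, (c j * k j) ^ J j) := by
  classical
  obtain ⟨E, hE1, hE2, hE3⟩ := exists_E hψ l n hl
  obtain ⟨V, hV⟩ := tuplesT (ψ := fun i => (ψ i)⁻¹) (nz_ms hf) hl n hE1 hE2 lam hlam hmem
    (fun i => hψ.tok (fun i => co (f i)) hE3 i) (nz_base hf hψ h0) r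
  refine ⟨V, fun H hH => ?_⟩
  obtain ⟨K, hK1, hK2, hK3⟩ := hV H (hH.ok hψ)
  refine ⟨K.image fun k j => (k j)⁻¹, Finset.card_image_le.trans hK1, fun k hk j => ?_,
    fun c hc => ?_⟩
  · obtain ⟨k', hk', rfl⟩ := Finset.mem_image.1 hk
    exact H.inv_mem (hK2 k' hk' j)
  · obtain ⟨k, hk, h3⟩ := hK3 (fun j => (c j)⁻¹) fun j => H.inv_mem (hc j)
    refine ⟨fun j => (k j)⁻¹, Finset.mem_image.2 ⟨k, hk, rfl⟩, fun J i => ?_⟩
    have hm : ∏ j, (c j * (k j)⁻¹) ^ J j ∈ H := prod_memF (G := Fam) H c (fun j => (k j)⁻¹) hc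
      (fun j => H.inv_mem (hK2 k hk j)) J
    rw [hH.iff hf hψ hm i]
    have e1 : (∏ j, (c j * (k j)⁻¹) ^ J j)⁻¹ = ∏ j, ((c j)⁻¹ * k j) ^ J j :=
      prod_invF (G := Fam) c k J
    have e2 : (ψ i)⁻¹ * (∏ j, (c j * (k j)⁻¹) ^ J j)⁻¹ = (ψ i)⁻¹ * ∏ j, ((c j)⁻¹ * k j) ^ J j :=
      congrArg (fun y => (ψ i)⁻¹ * y) e1
    intro h5
    exact h3 J i ((congrArg (bt (bv (f i))) e2).symm.trans h5)

/-- **Products of few elements.** -/
theorem anyN [Fintype ι] (hf : ∀ i, IsNf (N i) (f i)) (hψ : BT N ψ)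
    (h0 : ∀ i, TwNZ (f i) (ψ i)) (hl : l.Prime) (hlam : lam.IsPrime)
    (hmem : (l : integralClosure ℤ ℂ) ∈ lam) :
    ∃ V : ℕ, ∀ H : Subgroup Fam, HT N f ψ lam l n H →
      ∀ L : List Fam, V < L.length → (∀ c ∈ L, c ∈ H) →
        ∃ S : List Fam, S.Sublist L ∧ S ≠ [] ∧ ∀ (j : ℕ), ∀ i,
          TwNZ (f i) (ψ i * S.prod ^ j) := by
  classical
  obtain ⟨E, hE1, hE2, hE3⟩ := exists_E hψ l n hl
  obtain ⟨V, hV⟩ := anyT (ψ := fun i => (ψ i)⁻¹) (nz_ms hf) hl n hE1 hE2 lam hlam hmem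
    (fun i => hψ.tok (fun i => co (f i)) hE3 i) (nz_base hf hψ h0)
  refine ⟨V, fun H hH L hL hLH => ?_⟩
  obtain ⟨S, hS1, hS2, hS3⟩ := hV H (hH.ok hψ) (L.map fun c => c⁻¹) (by
    rwa [List.length_map]) (by
    intro c hc
    obtain ⟨c', hc', rfl⟩ := List.mem_map.1 hc
    exact H.inv_mem (hLH c' hc'))
  have hS4 := hS1.map (fun c : Fam => c⁻¹)
  rw [List.map_map] at hS4
  have e0 : ((fun c : Fam => c⁻¹) ∘ fun c : Fam => c⁻¹) = id := by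
    funext c
    exact mul_invF (G := Fam) c
  rw [e0, List.map_id] at hS4
  refine ⟨S.map fun c => c⁻¹, hS4, fun h => hS2 (List.map_eq_nil_iff.1 h), fun j i => ?_⟩
  have hmemH : (S.map fun c : Fam => c⁻¹).prod ∈ H := H.list_prod_mem fun c hc => by
    exact hLH c (hS4.subset hc)
  rw [hH.iff hf hψ (H.pow_mem hmemH j) i]
  have e1 : (((S.map fun c : Fam => c⁻¹).prod) ^ j)⁻¹ = S.prod ^ j := by
    have h1 : ∀ {G : Type} [CommGroup G] (S : List G) (j : ℕ),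
        (((S.map fun c : G => c⁻¹).prod) ^ j)⁻¹ = S.prod ^ j := by
      intro G _ S j
      rw [← inv_pow]
      congr 1
      rw [List.prod_inv, List.map_map]
      congr 1
      have : (Inv.inv ∘ fun c : G => c⁻¹) = id := by
        funext c
        simp
      rw [this, List.map_id]
    exact h1 (G := Fam) S j
  intro h5
  exact hS3 j i ((congrArg (fun y => bt (bv (f i)) ((ψ i)⁻¹ * y)) e1).symm.trans h5)

end

end Pool.Agent.Q6.NW
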